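import Pool.Agent.H.MP_d9e773_al.helper54.Domain

set_option autoImplicit false

/-!
# The bialgebra structure on `H`
-/

namespace Pool.Agent.HopfTwo

open MvPolynomial
open scoped TensorProduct

namespace HH

variable {k : Type} [Field k] [CharP k 2]

/-- the inclusion of `k[x,y]` -/
noncomputable def io : PA k →ₐ[k] HH k :=
  AlgHom.ofLinearMap
    { toFun := fun u => ⟨u, 0⟩
      map_add' := fun a b => by ext1 <;> simp
      map_smul' := fun a b => by ext1 <;> simp }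
    (by ext1 <;> simp)
    (fun a b => by ext1 <;> simp)

@[simp] lemma io_u (a : PA k) : (io a).u = a := rfl
@[simp] lemma io_v (a : PA k) : (io a).v = 0 := rfl

/-- the generator `z` -/
noncomputable def zz : HH k := ⟨0, 1⟩

omit [CharP k 2] in
@[simp] lemma zz_u : (zz : HH k).u = 0 := rfl
omit [CharP k 2] in
@[simp] lemma zz_v : (zz : HH k).v = 1 := rfl

lemma zz_mul_io (u : PA k) : zz * io u = io u * zz + io (dl k u) := by
  ext1 <;> simp

lemma zz_mul_zz : (zz : HH k) * zz = io (ff k) := by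
  ext1 <;> simp

lemma eta (a : HH k) : a = io a.u + io a.v * zz := by
  ext1 <;> simp

lemma h_two : (2 : HH k) = 0 := by
  have h : (2 : HH k) = 1 + 1 := by norm_num
  rw [h]
  ext1
  · simp only [add_u, one_u, zero_u]; exact add_self' k 1
  · simp

section lift

variable {B : Type} [Ring B] [Algebra k B]

omit [CharP k 2] in
lemma comm_of_gens (φ : PA k →ₐ[k] B) (ζ : B)
    (h0 : ∀ i, ζ * φ (X i) = φ (X i) * ζ + φ (dl k (X i))) (u : PA k) :
    ζ * φ u = φ u * ζ + φ (dl k u) := by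
  induction u using MvPolynomial.induction_on with
  | C c =>
    rw [← MvPolynomial.algebraMap_eq, AlgHom.commutes, Derivation.map_algebraMap, map_zero,
      add_zero]
    exact (Algebra.commutes c ζ).symm
  | add p q hp hq => simp only [map_add, mul_add, add_mul, hp, hq]; abel
  | mul_X p i hp =>
    rw [map_mul, ← mul_assoc, hp, add_mul, mul_assoc, h0 i, mul_add, Derivation.leibniz]
    simp only [smul_eq_mul, map_add, map_mul]
    have h1 : φ (X i) * φ (dl k p) = φ (dl k p) * φ (X i) := by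
      rw [← map_mul, mul_comm, map_mul]
    rw [h1]
    noncomm_ring

/-- the universal property of `H` -/
noncomputable def lift (φ : PA k →ₐ[k] B) (ζ : B)
    (h1 : ∀ u, ζ * φ u = φ u * ζ + φ (dl k u)) (h2 : ζ * ζ = φ (ff k)) : HH k →ₐ[k] B :=
  AlgHom.ofLinearMap
    { toFun := fun a => φ a.u + φ a.v * ζ
      map_add' := fun a b => by simp only [add_u, add_v, map_add, add_mul]; abel
      map_smul' := fun c a => by
        simp only [smul_u, smul_v, map_smul, smul_add, smul_mul_assoc, RingHom.id_apply] }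
    (by simp)
    (fun a b => by
      simp only [LinearMap.coe_mk, AddHom.coe_mk, mul_u, mul_v, map_add, map_mul]
      have e1 : φ a.v * ζ * (φ b.v * ζ) = φ a.v * (φ b.v * φ (ff k)) +
          φ a.v * φ (dl k b.v) * ζ := by
        rw [mul_assoc, ← mul_assoc ζ, h1, add_mul, mul_assoc (φ b.v), h2]
        noncomm_ring
      have e2 : φ a.v * ζ * φ b.u = φ a.v * φ b.u * ζ + φ a.v * φ (dl k b.u) := by
        rw [mul_assoc, h1]
        noncomm_ring
      have e3 : (φ a.u + φ a.v * ζ) * (φ b.u + φ b.v * ζ) = φ a.u * φ b.u + φ a.u * (φ b.v * ζ) +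
          (φ a.v * ζ * φ b.u + φ a.v * ζ * (φ b.v * ζ)) := by noncomm_ring
      rw [e3, e1, e2]
      noncomm_ring)

@[simp] lemma lift_io (φ : PA k →ₐ[k] B) (ζ : B) (h1 h2) (u : PA k) :
    lift φ ζ h1 h2 (io u) = φ u := by
  simp [lift]

@[simp] lemma lift_zz (φ : PA k →ₐ[k] B) (ζ : B) (h1 h2) :
    lift φ ζ h1 h2 zz = ζ := by
  simp [lift]

lemma hom_ext (f g : HH k →ₐ[k] B) (h0 : ∀ i, f (io (X i)) = g (io (X i))) (hz : f zz = g zz) :
    f = g := by
  have h1 : f.comp io = g.comp io := by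
    apply MvPolynomial.algHom_ext
    intro i
    exact h0 i
  have h2 : ∀ u, f (io u) = g (io u) := fun u => DFunLike.congr_fun h1 u
  apply AlgHom.ext
  intro a
  rw [eta a, map_add, map_add, map_mul, map_mul, h2, h2, hz]

end lift

lemma adjoin_eq_top :
    Algebra.adjoin k ({io (X 0), io (X 1), zz} : Set (HH k)) = ⊤ := by
  rw [eq_top_iff]
  intro a _
  have h1 : ∀ u : PA k, io u ∈ Algebra.adjoin k ({io (X 0), io (X 1), zz} : Set (HH k)) := by
    intro u
    induction u using MvPolynomial.induction_on with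
    | C c =>
      rw [← MvPolynomial.algebraMap_eq, AlgHom.commutes]
      exact Subalgebra.algebraMap_mem _ c
    | add p q hp hq => rw [map_add]; exact add_mem hp hq
    | mul_X p i hp =>
      rw [map_mul]
      refine mul_mem hp (Algebra.subset_adjoin ?_)
      fin_cases i <;> simp
  rw [eta a]
  exact add_mem (h1 _) (mul_mem (h1 _) (Algebra.subset_adjoin (by simp)))

/-- the counit -/
noncomputable def cou : HH k →ₐ[k] k :=
  lift (aeval (fun _ => (0 : k))) 0
    (comm_of_gens _ _ (fun i => by fin_cases i <;> simp))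
    (by simp [ff])

@[simp] lemma cou_X (i : Fin 2) : cou (io (X i : PA k)) = 0 := by simp [cou]
@[simp] lemma cou_zz : cou (zz : HH k) = 0 := by simp [cou]

/-- primitive-like elements -/
noncomputable def pr (a : HH k) : HH k ⊗[k] HH k := a ⊗ₜ 1 + 1 ⊗ₜ a

lemma t_two : (2 : HH k ⊗[k] HH k) = 0 := by
  have h : (2 : HH k ⊗[k] HH k) = (2 : HH k) ⊗ₜ (1 : HH k) := by
    have h2 : (2 : HH k) = 1 + 1 := by norm_num
    rw [h2, TensorProduct.add_tmul, ← Algebra.TensorProduct.one_def]; norm_num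
  rw [h, h_two, TensorProduct.zero_tmul]

lemma t_add_self (t : HH k ⊗[k] HH k) : t + t = 0 := by
  rw [← two_mul, t_two, zero_mul]

lemma pr_mul (a b : HH k) : pr a * pr b = pr (a * b) + (a ⊗ₜ b + b ⊗ₜ a) := by
  simp only [pr, mul_add, add_mul, Algebra.TensorProduct.tmul_mul_tmul, mul_one, one_mul]
  abel

lemma pr_add (a b : HH k) : pr (a + b) = pr a + pr b := by
  simp only [pr, TensorProduct.add_tmul, TensorProduct.tmul_add]
  abel

lemma pr_mul_self (a : HH k) : pr a * pr a = pr (a * a) := by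
  rw [pr_mul, t_add_self, add_zero]

/-- the inclusion `A ⊗ A → H ⊗ H` -/
noncomputable def io2 : PA k ⊗[k] PA k →ₐ[k] HH k ⊗[k] HH k :=
  Algebra.TensorProduct.map io io

@[simp] lemma io2_tmul (a b : PA k) : io2 (a ⊗ₜ b) = (io a : HH k) ⊗ₜ (io b) := rfl

lemma io2_comm (s t : PA k ⊗[k] PA k) : io2 s * io2 t = io2 t * io2 s := by
  rw [← map_mul, mul_comm, map_mul]

/-- `Δ` on `A` -/
noncomputable def phi : PA k →ₐ[k] HH k ⊗[k] HH k :=
  io2.comp (aeval (fun i => (X i : PA k) ⊗ₜ[k] (1 : PA k) + (1 : PA k) ⊗ₜ[k] X i))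

lemma phi_eq_io2 (u : PA k) : ∃ t, phi u = io2 t := ⟨_, rfl⟩

@[simp] lemma phi_X (i : Fin 2) : phi (X i : PA k) = pr (io (X i)) := by
  simp [phi, pr]

lemma phi_X0_sq : phi (X 0 ^ 2 : PA k) = pr (io (X 0 ^ 2)) := by
  rw [map_pow, phi_X, sq, pr_mul_self, ← map_mul, ← sq]

lemma phi_X1_sq : phi (X 1 ^ 2 : PA k) = pr (io (X 1 ^ 2)) := by
  rw [map_pow, phi_X, sq, pr_mul_self, ← map_mul, ← sq]

lemma phi_X0_four : phi (X 0 ^ 4 : PA k) = pr (io (X 0 ^ 4)) := by
  have h4 : (X 0 : PA k) ^ 4 = (X 0 ^ 2) * (X 0 ^ 2) := by ring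
  rw [h4, map_mul, phi_X0_sq, pr_mul_self, ← map_mul]

lemma phi_X0_eight : phi (X 0 ^ 8 : PA k) = pr (io (X 0 ^ 8)) := by
  have h8 : (X 0 : PA k) ^ 8 = (X 0 ^ 4) * (X 0 ^ 4) := by ring
  rw [h8, map_mul, phi_X0_four, pr_mul_self, ← map_mul]

lemma phi_dl_X (i : Fin 2) : phi (dl k (X i)) = pr (io (dl k (X i))) := by
  fin_cases i
  · simp only [Fin.zero_eta, dl_X0]; exact phi_X1_sq
  · simp only [Fin.mk_one, dl_X1]
    rw [map_add, map_add, phi_X1_sq, phi_X0_four, phi_X0_eight, ← pr_add, ← pr_add, ← map_add,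
      ← map_add]

/-- the correction term of `Δ(z)` -/
noncomputable def ww' : PA k ⊗[k] PA k :=
  (X 0 ^ 2 : PA k) ⊗ₜ (X 1 : PA k) + (X 0 : PA k) ⊗ₜ (X 0 ^ 2 + X 0 ^ 4 : PA k)

/-- the correction term of `Δ(z)` -/
noncomputable def ww : HH k ⊗[k] HH k := io2 ww'

lemma ww_eq : (ww : HH k ⊗[k] HH k) = io (X 0 ^ 2) ⊗ₜ io (X 1) + io (X 0) ⊗ₜ io (X 0 ^ 2 + X 0 ^ 4)
    := by
  simp only [ww, ww', map_add, io2_tmul]

/-- `Δ(z)` -/
noncomputable def dz : HH k ⊗[k] HH k := pr zz + ww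

lemma dz_comm (i : Fin 2) : dz * phi (X i : PA k) = phi (X i) * dz + phi (dl k (X i)) := by
  have h1 : (ww : HH k ⊗[k] HH k) * phi (X i : PA k) = phi (X i) * ww := by
    obtain ⟨t, ht⟩ := phi_eq_io2 (X i : PA k)
    rw [ht]
    exact io2_comm _ _
  have h2 : pr zz * phi (X i : PA k) = phi (X i) * pr zz + phi (dl k (X i)) := by
    rw [phi_X, phi_dl_X, pr_mul, pr_mul, zz_mul_io, pr_add]
    abel
  rw [dz, add_mul, mul_add, h1, h2]
  abel

lemma zz_comm_of (u : PA k) (h : dl k u = 0) : zz * io u = io u * zz := by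
  rw [zz_mul_io, h, map_zero, add_zero]

lemma dz_sq : (dz : HH k ⊗[k] HH k) * dz = phi (ff k) := by
  have hP : dl k (X 0 ^ 2 : PA k) = 0 := dl_sq k _
  have hQ : dl k (X 0 ^ 2 + X 0 ^ 4 : PA k) = 0 := by
    have h4 : (X 0 : PA k) ^ 4 = (X 0 ^ 2) ^ 2 := by ring
    rw [map_add, h4, dl_sq, dl_sq, add_zero]
  -- pr z * pr z = pr f
  have h1 : pr zz * pr (zz : HH k) = pr (io (ff k)) := by rw [pr_mul_self, zz_mul_zz]
  -- [pr z, w] = io2 (D w)
  have h2 : pr zz * ww = ww * pr zz +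
      ((io (X 0 ^ 2) : HH k) ⊗ₜ io (dl k (X 1)) +
        (io (dl k (X 0)) : HH k) ⊗ₜ io (X 0 ^ 2 + X 0 ^ 4)) := by
    rw [ww_eq]
    simp only [pr, mul_add, add_mul, Algebra.TensorProduct.tmul_mul_tmul, mul_one, one_mul,
      TensorProduct.add_tmul, TensorProduct.tmul_add, zz_comm_of _ hP, zz_comm_of _ hQ,
      zz_mul_io (X 1), zz_mul_io (X 0)]
    abel
  have h3 : (ww : HH k ⊗[k] HH k) * ww + ((io (X 0 ^ 2) : HH k) ⊗ₜ io (dl k (X 1)) +
        (io (dl k (X 0)) : HH k) ⊗ₜ io (X 0 ^ 2 + X 0 ^ 4)) =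
        io2 ((X 0 ^ 2 + X 0 ^ 4 : PA k) ⊗ₜ (X 1 ^ 2 : PA k) +
          (X 1 ^ 2 : PA k) ⊗ₜ (X 0 ^ 2 + X 0 ^ 4 : PA k)) := by
    rw [← io2_tmul, ← io2_tmul, ww, ← map_mul, ← map_add, ← map_add]
    congr 1
    have key : ∀ a b : PA k, a ⊗ₜ[k] b = (Algebra.TensorProduct.includeLeft (S := k) a) *
        (Algebra.TensorProduct.includeRight (R := k) (A := PA k) b) := by
      intro a b; simp
    have h2 : (2 : PA k ⊗[k] PA k) = 0 := by
      have h : (2 : PA k ⊗[k] PA k) = (Algebra.TensorProduct.includeLeft (S := k) (2 : PA k)) := by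
        rw [map_ofNat]
      rw [h, two_zero, map_zero]
    rw [ww', dl_X0, dl_X1]
    simp only [key, map_add, map_pow]
    generalize (Algebra.TensorProduct.includeLeft (S := k) (X 0 : PA k) : PA k ⊗[k] PA k) = x1
    generalize (Algebra.TensorProduct.includeRight (R := k) (A := PA k) (X 0 : PA k)) = x2
    generalize (Algebra.TensorProduct.includeLeft (S := k) (X 1 : PA k) : PA k ⊗[k] PA k) = y1
    generalize (Algebra.TensorProduct.includeRight (R := k) (A := PA k) (X 1 : PA k)) = y2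
    linear_combination (x1 ^ 2 * y2 * x1 * (x2 ^ 2 + x2 ^ 4) + x1 ^ 2 * (x2 ^ 4 + x2 ^ 8)
      + x1 ^ 2 * x2 ^ 6) * h2
  have h4 : phi (ff k) = pr (io (ff k)) +
      io2 ((X 0 ^ 2 + X 0 ^ 4 : PA k) ⊗ₜ (X 1 ^ 2 : PA k) +
          (X 1 ^ 2 : PA k) ⊗ₜ (X 0 ^ 2 + X 0 ^ 4 : PA k)) := by
    have e : io2 ((X 0 ^ 2 + X 0 ^ 4 : PA k) ⊗ₜ (X 1 ^ 2 : PA k) +
          (X 1 ^ 2 : PA k) ⊗ₜ (X 0 ^ 2 + X 0 ^ 4 : PA k)) =
          (io (X 0 ^ 2 + X 0 ^ 4 : PA k) : HH k) ⊗ₜ io (X 1 ^ 2 : PA k) +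
          (io (X 1 ^ 2 : PA k) : HH k) ⊗ₜ io (X 0 ^ 2 + X 0 ^ 4 : PA k) := by
      rw [map_add, io2_tmul, io2_tmul]
    rw [e, ff, map_mul, phi_X1_sq, map_add, phi_X0_sq, phi_X0_four, ← pr_add, ← map_add, pr_mul,
      ← map_mul]
    abel
  rw [h4, ← h3, dz, add_mul, mul_add, mul_add, h1, h2]
  have h5 := t_add_self ((ww : HH k ⊗[k] HH k) * pr zz)
  rw [← sub_eq_zero]
  rw [← h5]
  abel

/-- the comultiplication -/
noncomputable def com : HH k →ₐ[k] HH k ⊗[k] HH k :=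
  lift phi dz (comm_of_gens _ _ dz_comm) dz_sq

@[simp] lemma com_io (u : PA k) : com (io u) = phi u := by simp [com]
@[simp] lemma com_zz : com (zz : HH k) = dz := by simp [com]

lemma com_X (i : Fin 2) : com (io (X i : PA k)) = pr (io (X i)) := by simp

lemma phi_Q : phi (X 0 ^ 2 + X 0 ^ 4 : PA k) = pr (io (X 0 ^ 2 + X 0 ^ 4)) := by
  rw [map_add, phi_X0_sq, phi_X0_four, ← pr_add, map_add]

lemma assoc_tmul' (a b c : HH k) : (Algebra.TensorProduct.assoc k k k (HH k) (HH k) (HH k))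
    ((a ⊗ₜ b) ⊗ₜ c) = a ⊗ₜ (b ⊗ₜ c) := rfl

lemma coassoc : (Algebra.TensorProduct.assoc k k k (HH k) (HH k) (HH k)).toAlgHom.comp
      ((Algebra.TensorProduct.map (com (k := k)) (.id k (HH k))).comp (com (k := k)))
      = (Algebra.TensorProduct.map (.id k (HH k)) (com (k := k))).comp (com (k := k)) := by
  apply hom_ext
  · intro i
    simp only [AlgHom.comp_apply, com_X, pr, map_add, Algebra.TensorProduct.map_tmul, map_one,
      AlgHom.id_apply, AlgEquiv.toAlgHom_apply, TensorProduct.add_tmul, TensorProduct.tmul_add,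
      Algebra.TensorProduct.one_def, assoc_tmul']
    abel
  · simp only [AlgHom.comp_apply, com_zz, dz, ww_eq, com_io, phi_X, phi_X0_four, phi_X0_sq,
      pr, map_add, Algebra.TensorProduct.map_tmul, map_one,
      AlgHom.id_apply, AlgEquiv.toAlgHom_apply, TensorProduct.add_tmul, TensorProduct.tmul_add,
      Algebra.TensorProduct.one_def, assoc_tmul']
    abel

lemma rT : (Algebra.TensorProduct.map (cou (k := k)) (.id k (HH k))).comp (com (k := k))
      = (Algebra.TensorProduct.lid k (HH k)).symm := by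
  apply hom_ext
  · intro i
    simp [pr]
  · simp [pr, dz, ww_eq]

lemma lT : (Algebra.TensorProduct.map (.id k (HH k)) (cou (k := k))).comp (com (k := k))
      = (Algebra.TensorProduct.rid k k (HH k)).symm := by
  apply hom_ext
  · intro i
    simp [pr]
  · simp [pr, dz, ww_eq]

noncomputable instance : Bialgebra k (HH k) :=
  Bialgebra.ofAlgHom com cou coassoc rT lT

end HH

end Pool.Agent.HopfTwo
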