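import Pool.Agent.H.MP_d9e773_al.helper54.Key

set_option autoImplicit false

/-!
# `H` is a domain
-/

namespace Pool.Agent.HopfTwo

open MvPolynomial

namespace HH

variable {k : Type} [Field k] [CharP k 2]

/-- the norm form -/
noncomputable def nrm (u v : PA k) : PA k := u ^ 2 + v ^ 2 * ff k + dl k (u * v)

lemma conj_mul (a : HH k) : (a + ⟨dl k a.v, 0⟩) * a = ⟨nrm a.u a.v, 0⟩ := by
  have h2 := two_zero k
  ext1
  · simp only [mul_u, add_u, add_v, nrm, Derivation.leibniz, smul_eq_mul]
    ring
  · simp only [mul_v, add_u, add_v]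
    linear_combination (a.u * a.v + a.v * dl k a.v) * h2

lemma nrm_ne_zero (u v : PA k) (h : nrm u v = 0) : u = 0 ∧ v = 0 := by
  classical
  have h2 := two_zero k
  by_cases hv : v = 0
  · subst hv
    unfold nrm at h
    have : u ^ 2 = 0 := by simpa using h
    exact ⟨pow_eq_zero_iff (two_ne_zero) |>.1 this, rfl⟩
  exfalso
  obtain ⟨v', u', d, hrel, hdv, hdu⟩ := UniqueFactorizationMonoid.exists_reduced_factors v hv u
  have hd : d ≠ 0 := by
    rintro rfl
    apply hv
    rw [← hdv, zero_mul]
  have hv' : v' ≠ 0 := by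
    rintro rfl
    apply hv
    rw [← hdv, mul_zero]
  have h' : nrm u' v' = 0 := by
    have h3 : nrm u v = d ^ 2 * nrm u' v' := by
      unfold nrm
      rw [← hdv, ← hdu]
      have : d * u' * (d * v') = d ^ 2 * (u' * v') := by ring
      rw [this, dl_sq_mul]
      ring
    rw [h] at h3
    rcases mul_eq_zero.1 h3.symm with h4 | h4
    · exact absurd (pow_eq_zero_iff (two_ne_zero) |>.1 h4) hd
    · exact h4
  have hdvd : v' ∣ u' * (u' + dl k v') := by
    refine ⟨-(v' * ff k + dl k u'), ?_⟩
    unfold nrm at h'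
    rw [Derivation.leibniz] at h'
    simp only [smul_eq_mul] at h'
    linear_combination h'
  have hdvd2 : v' ∣ u' + dl k v' := hrel.dvd_of_dvd_mul_left hdvd
  obtain ⟨g, hg⟩ := hdvd2
  apply no_solution g
  have hu' : u' = dl k v' + v' * g := by
    linear_combination hg - (dl k v') * h2
  have h5 : v' ^ 2 * (g ^ 2 + dl k g - ff k) = 0 := by
    have h6 : dl k (u' * v') = dl k v' ^ 2 + v' ^ 2 * dl k g := by
      have : u' * v' = dl k v' * v' + v' ^ 2 * g := by rw [hu']; ring
      rw [this, map_add, dl_sq_mul, Derivation.leibniz, dl_dl]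
      simp only [smul_eq_mul]
      ring
    unfold nrm at h'
    rw [h6, hu'] at h'
    linear_combination h' - (v' * g * dl k v' + v' ^ 2 * ff k + dl k v' ^ 2) * h2
  rcases mul_eq_zero.1 h5 with h7 | h7
  · exact absurd (pow_eq_zero_iff (two_ne_zero) |>.1 h7) hv'
  · linear_combination h7

instance : Nontrivial (HH k) := ⟨0, 1, fun h => by
  have := congrArg HH.u h
  simp at this⟩

instance : NoZeroDivisors (HH k) where
  eq_zero_or_eq_zero_of_mul_eq_zero := by
    intro a b hab
    by_cases ha : a = 0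
    · exact Or.inl ha
    right
    have hN : nrm a.u a.v ≠ 0 := by
      intro h
      obtain ⟨h1, h2⟩ := nrm_ne_zero _ _ h
      exact ha (HH.ext h1 h2)
    have h1 : (⟨nrm a.u a.v, 0⟩ : HH k) * b = 0 := by
      rw [← conj_mul, mul_assoc, hab, mul_zero]
    have hu := congrArg HH.u h1
    have hv := congrArg HH.v h1
    simp only [mul_u, mul_v, zero_mul, add_zero, zero_u, zero_v] at hu hv
    ext1
    · exact (mul_eq_zero.1 hu).resolve_left hN
    · exact (mul_eq_zero.1 hv).resolve_left hN

instance : IsDomain (HH k) := NoZeroDivisors.to_isDomain _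

end HH

end Pool.Agent.HopfTwo
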