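import Pool.Agent.H.MP_d9e773_al.helper54.Hopf

set_option autoImplicit false

/-!
# The filtration on `H` and connectedness
-/

namespace Pool.Agent.HopfTwo

open MvPolynomial
open scoped TensorProduct

namespace HH

variable {k : Type} [Field k]

/-- the filtration: `deg u ≤ n` and `deg v + 7 ≤ n` (or `v = 0`) -/
noncomputable def Fl (n : ℕ) : Submodule k (HH k) where
  carrier := {a | a.u.totalDegree ≤ n ∧ (a.v = 0 ∨ a.v.totalDegree + 7 ≤ n)}
  zero_mem' := by simp
  add_mem' := by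
    rintro a b ⟨ha1, ha2⟩ ⟨hb1, hb2⟩
    refine ⟨(totalDegree_add _ _).trans (max_le ha1 hb1), ?_⟩
    rcases ha2 with ha2 | ha2
    · rcases hb2 with hb2 | hb2
      · left; simp [ha2, hb2]
      · right; simpa [ha2] using hb2
    · rcases hb2 with hb2 | hb2
      · right; simpa [hb2] using ha2
      · right
        have := totalDegree_add a.v b.v
        rw [add_v]
        rcases max_choice a.v.totalDegree b.v.totalDegree with h | h <;> omega
  smul_mem' := by
    rintro c a ⟨ha1, ha2⟩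
    refine ⟨(totalDegree_smul_le _ _).trans ha1, ?_⟩
    rcases ha2 with ha2 | ha2
    · left; simp [ha2]
    · right
      have := totalDegree_smul_le c a.v
      rw [smul_v]
      omega

lemma mem_Fl {n : ℕ} {a : HH k} :
    a ∈ Fl n ↔ a.u.totalDegree ≤ n ∧ (a.v = 0 ∨ a.v.totalDegree + 7 ≤ n) := Iff.rfl

lemma Fl_mono {n m : ℕ} (h : n ≤ m) : (Fl n : Submodule k (HH k)) ≤ Fl m := by
  rintro a ⟨h1, h2⟩
  refine ⟨h1.trans h, ?_⟩
  rcases h2 with h2 | h2
  · exact Or.inl h2
  · exact Or.inr (h2.trans h)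

lemma exists_Fl (a : HH k) : ∃ n, a ∈ Fl n :=
  ⟨a.u.totalDegree + (a.v.totalDegree + 7), Nat.le_add_right _ _, Or.inr (Nat.le_add_left _ _)⟩

lemma totalDegree_io_add {p q : PA k} {n : ℕ} (hp : p.totalDegree ≤ n) (hq : q.totalDegree ≤ n) :
    (p + q).totalDegree ≤ n := (totalDegree_add _ _).trans (max_le hp hq)

variable [CharP k 2]

omit [CharP k 2] in
lemma mul_mem_Fl {n m : ℕ} {a b : HH k} (ha : a ∈ Fl n) (hb : b ∈ Fl m) : a * b ∈ Fl (n + m) := by
  obtain ⟨ha1, ha2⟩ := ha
  obtain ⟨hb1, hb2⟩ := hb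
  have h1 : (a.u * b.u).totalDegree ≤ n + m := (totalDegree_mul _ _).trans (by omega)
  have h2 : (a.v * dl k b.u).totalDegree ≤ n + m := by
    rcases ha2 with ha2 | ha2
    · simp [ha2]
    · have := totalDegree_dl_le b.u
      exact (totalDegree_mul _ _).trans (by omega)
  have h3 : (a.v * b.v * ff k).totalDegree ≤ n + m := by
    rcases ha2 with ha2 | ha2
    · simp [ha2]
    · rcases hb2 with hb2 | hb2
      · simp [hb2]
      · have h5 := totalDegree_mul a.v b.v
        have h6 := totalDegree_ff_le (k := k)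
        exact (totalDegree_mul _ _).trans (by omega)
  refine ⟨totalDegree_io_add (totalDegree_io_add h1 h2) h3, ?_⟩
  rw [mul_v]
  rcases ha2 with ha2 | ha2
  · rw [ha2]
    rcases hb2 with hb2 | hb2
    · left; rw [hb2]; simp
    · right
      have := totalDegree_mul a.u b.v
      simp only [zero_mul, add_zero]
      omega
  · rcases hb2 with hb2 | hb2
    · rw [hb2]
      right
      simp only [mul_zero, zero_add, map_zero, add_zero]
      have := totalDegree_mul a.v b.u
      omega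
    · right
      have e1 : (a.u * b.v).totalDegree ≤ n + m - 7 := (totalDegree_mul _ _).trans (by omega)
      have e2 : (a.v * b.u).totalDegree ≤ n + m - 7 := (totalDegree_mul _ _).trans (by omega)
      have e3 : (a.v * dl k b.v).totalDegree ≤ n + m - 7 := by
        have := totalDegree_dl_le b.v
        exact (totalDegree_mul _ _).trans (by omega)
      have := totalDegree_io_add (totalDegree_io_add e1 e2) e3
      omega

lemma io_mem_Fl {u : PA k} {n : ℕ} (h : u.totalDegree ≤ n) : io u ∈ Fl n :=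
  ⟨h, Or.inl rfl⟩

omit [CharP k 2] in
lemma zz_mem_Fl : (zz : HH k) ∈ Fl 7 := ⟨by simp, Or.inr (by simp)⟩

omit [CharP k 2] in
lemma one_mem_Fl (n : ℕ) : (1 : HH k) ∈ Fl n := ⟨by simp, Or.inl rfl⟩

lemma X_mem_Fl (i : Fin 2) : io (X i : PA k) ∈ Fl 1 := io_mem_Fl (by simp)

lemma Fl_zero {a : HH k} (h : a ∈ Fl 0) : ∃ c : k, a = algebraMap k (HH k) c := by
  obtain ⟨h1, h2⟩ := h
  refine ⟨coeff 0 a.u, ?_⟩
  ext1
  · rw [algebraMap_u]
    exact totalDegree_eq_zero_iff_eq_C.1 (Nat.le_zero.1 h1)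
  · rw [algebraMap_v]
    rcases h2 with h2 | h2
    · exact h2
    · omega

/-- the filtration on `H ⊗ H` -/
noncomputable def Gl (n : ℕ) : Submodule k (HH k ⊗[k] HH k) :=
  Submodule.span k {t | ∃ i j : ℕ, ∃ a b : HH k, i + j ≤ n ∧ a ∈ Fl i ∧ b ∈ Fl j ∧ t = a ⊗ₜ b}

lemma tmul_mem_Gl {n i j : ℕ} {a b : HH k} (h : i + j ≤ n) (ha : a ∈ Fl i) (hb : b ∈ Fl j) :
    a ⊗ₜ[k] b ∈ Gl (k := k) n :=
  Submodule.subset_span ⟨i, j, a, b, h, ha, hb, rfl⟩

lemma Gl_mono {n m : ℕ} (h : n ≤ m) : Gl (k := k) n ≤ Gl m := by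
  apply Submodule.span_mono
  rintro t ⟨i, j, a, b, hij, ha, hb, rfl⟩
  exact ⟨i, j, a, b, hij.trans h, ha, hb, rfl⟩

lemma mul_mem_Gl {n m : ℕ} {s t : HH k ⊗[k] HH k} (hs : s ∈ Gl (k := k) n)
    (ht : t ∈ Gl (k := k) m) : s * t ∈ Gl (k := k) (n + m) := by
  unfold Gl at hs
  induction hs using Submodule.span_induction with
  | mem s hs =>
    obtain ⟨i, j, a, b, hij, ha, hb, rfl⟩ := hs
    unfold Gl at ht
    induction ht using Submodule.span_induction with
    | mem t ht =>
      obtain ⟨i', j', a', b', hij', ha', hb', rfl⟩ := ht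
      rw [Algebra.TensorProduct.tmul_mul_tmul]
      exact tmul_mem_Gl (by omega) (mul_mem_Fl ha ha') (mul_mem_Fl hb hb')
    | zero => simp
    | add x y _ _ hx hy => rw [mul_add]; exact add_mem hx hy
    | smul c x _ hx => rw [mul_smul_comm]; exact Submodule.smul_mem _ _ hx
  | zero => simp
  | add x y _ _ hx hy => rw [add_mul]; exact add_mem hx hy
  | smul c x _ hx => rw [smul_mul_assoc]; exact Submodule.smul_mem _ _ hx

lemma one_mem_Gl (n : ℕ) : (1 : HH k ⊗[k] HH k) ∈ Gl (k := k) n := by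
  rw [Algebra.TensorProduct.one_def]
  exact tmul_mem_Gl (i := 0) (j := 0) (Nat.zero_le _) (one_mem_Fl 0) (one_mem_Fl 0)

lemma pr_mem_Gl {n : ℕ} {a : HH k} (ha : a ∈ Fl n) : pr a ∈ Gl (k := k) n :=
  add_mem (tmul_mem_Gl (i := n) (j := 0) (by omega) ha (one_mem_Fl 0))
    (tmul_mem_Gl (i := 0) (j := n) (by omega) (one_mem_Fl 0) ha)

lemma pow_mem_Gl {n e : ℕ} {t : HH k ⊗[k] HH k} (ht : t ∈ Gl (k := k) n) :
    t ^ e ∈ Gl (k := k) (e * n) := by
  induction e with
  | zero => simpa using one_mem_Gl 0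
  | succ e ih =>
    rw [pow_succ, Nat.succ_mul]
    exact mul_mem_Gl ih ht

lemma phi_mem_Gl {u : PA k} {n : ℕ} (h : u.totalDegree ≤ n) : phi u ∈ Gl (k := k) n := by
  rw [u.as_sum, map_sum]
  apply Submodule.sum_mem
  intro m hm
  have h1 := (le_totalDegree hm).trans h
  have h2 : (monomial m (coeff m u) : PA k) = coeff m u • (X 0 ^ (m 0) * X 1 ^ (m 1)) := by
    rw [monomial_eq, smul_eq_C_mul, Finsupp.prod_fintype _ _ (by simp)]
    simp
  have h3 : (m.sum fun _ e => e) = m 0 + m 1 := by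
    rw [Finsupp.sum_fintype _ _ (by simp)]; simp
  rw [h2, map_smul]
  apply Submodule.smul_mem
  rw [map_mul, map_pow, map_pow, phi_X, phi_X]
  have h4 := mul_mem_Gl (pow_mem_Gl (e := m 0) (pr_mem_Gl (X_mem_Fl (k := k) 0)))
    (pow_mem_Gl (e := m 1) (pr_mem_Gl (X_mem_Fl (k := k) 1)))
  exact Gl_mono (by omega) h4

lemma ww_mem_Gl : (ww : HH k ⊗[k] HH k) ∈ Gl (k := k) 7 := by
  rw [ww_eq]
  refine add_mem (tmul_mem_Gl (i := 2) (j := 1) (by norm_num) (io_mem_Fl ?_) (X_mem_Fl _))
    (tmul_mem_Gl (i := 1) (j := 4) (by norm_num) (X_mem_Fl _) (io_mem_Fl ?_))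
  · refine (totalDegree_pow _ _).trans ?_
    simp
  · refine totalDegree_io_add ?_ ?_
    · refine (totalDegree_pow _ _).trans ?_
      simp
    · refine (totalDegree_pow _ _).trans ?_
      simp

lemma com_mem_Gl {a : HH k} {n : ℕ} (h : a ∈ Fl n) : com a ∈ Gl (k := k) n := by
  obtain ⟨h1, h2⟩ := h
  rw [eta a, map_add, map_mul, com_io, com_io, com_zz]
  refine add_mem (phi_mem_Gl h1) ?_
  rcases h2 with h2 | h2
  · rw [h2, map_zero, zero_mul]; exact zero_mem _
  · refine Gl_mono h2 (mul_mem_Gl (phi_mem_Gl le_rfl) ?_)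
    exact add_mem (pr_mem_Gl zz_mem_Fl) ww_mem_Gl

/-- `id ⊗ g` -/
noncomputable def TT (g : HH k →ₗ[k] k) : HH k ⊗[k] HH k →ₗ[k] HH k :=
  (TensorProduct.rid k (HH k)).toLinearMap ∘ₗ g.lTensor (HH k)

@[simp] lemma TT_tmul (g : HH k →ₗ[k] k) (a b : HH k) : TT g (a ⊗ₜ b) = g b • a := by
  simp [TT]

lemma cou_TT (g : HH k →ₗ[k] k) (t : HH k ⊗[k] HH k) :
    cou (TT g t) = g (TensorProduct.lid k (HH k) ((cou (k := k)).toLinearMap.rTensor (HH k) t)) := by
  induction t using TensorProduct.induction_on with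
  | zero => simp
  | tmul a b => simp [mul_comm]
  | add s t hs ht => simp only [map_add, hs, ht]

lemma lid_com (a : HH k) :
    TensorProduct.lid k (HH k) ((cou (k := k)).toLinearMap.rTensor (HH k) (com a)) = a := by
  have h := Coalgebra.rTensor_counit_comul (R := k) a
  have h2 : (cou (k := k)).toLinearMap.rTensor (HH k) (com a) = 1 ⊗ₜ a := h
  rw [h2]; simp

/-- `H` is connected -/
theorem connected (C : Submodule k (HH k)) (hC : C ≠ ⊥)
    (h : ∀ c ∈ C, Coalgebra.comul (R := k) c ∈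
        LinearMap.range (TensorProduct.map C.subtype C.subtype)) :
    (1 : HH k) ∈ C := by
  classical
  obtain ⟨c0, hc0, hne⟩ := Submodule.exists_mem_ne_zero_of_ne_bot hC
  have hex : ∃ n, ∃ c ∈ C, c ≠ 0 ∧ c ∈ Fl n := by
    obtain ⟨n, hn⟩ := exists_Fl c0
    exact ⟨n, c0, hc0, hne, hn⟩
  have fin : ∀ c ∈ C, c ≠ 0 → c ∈ Fl 0 → (1 : HH k) ∈ C := by
    intro c hc hc0 hF
    obtain ⟨r, hr⟩ := Fl_zero hF
    have hr0 : r ≠ 0 := by
      rintro rfl
      exact hc0 (by rw [hr, map_zero])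
    have : (1 : HH k) = r⁻¹ • c := by
      rw [hr, Algebra.algebraMap_eq_smul_one, smul_smul, inv_mul_cancel₀ hr0, one_smul]
    rw [this]
    exact C.smul_mem _ hc
  obtain ⟨c, hc, hcne, hcF⟩ := Nat.find_spec hex
  rcases hn : Nat.find hex with _ | n
  · rw [hn] at hcF
    exact fin c hc hcne hcF
  · rw [hn] at hcF
    have hnot : c ∉ Fl n := by
      intro hcn
      have := Nat.find_min hex (m := n) (by omega)
      exact this ⟨c, hc, hcne, hcn⟩
    obtain ⟨g, hgc, hg⟩ := Submodule.exists_le_ker_of_notMem hnot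
    have h1 : TT g (com c) ∈ C := by
      obtain ⟨t, ht⟩ := h c hc
      have ht' : com c = TensorProduct.map C.subtype C.subtype t := ht.symm
      rw [ht']
      have key : ∀ t : C ⊗[k] C, TT g (TensorProduct.map C.subtype C.subtype t) ∈ C := by
        intro t
        induction t using TensorProduct.induction_on with
        | zero => simp
        | tmul a b => simpa using C.smul_mem _ a.2
        | add s t hs ht => rw [map_add, map_add]; exact add_mem hs ht
      exact key t
    have h2 : TT g (com c) ∈ Fl 0 := by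
      have h3 := com_mem_Gl hcF
      unfold Gl at h3
      revert h3
      generalize com c = t
      intro h3
      induction h3 using Submodule.span_induction with
      | mem s hs =>
        obtain ⟨i, j, a, b, hij, ha, hb, rfl⟩ := hs
        rw [TT_tmul]
        rcases Nat.lt_or_ge n j with hj | hj
        · have hi : i = 0 := by omega
          subst hi
          exact Submodule.smul_mem _ _ ha
        · have : g b = 0 := hg (Fl_mono hj hb)
          rw [this, zero_smul]; exact zero_mem _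
      | zero => simp
      | add x y _ _ hx hy => rw [map_add]; exact add_mem hx hy
      | smul r x _ hx => rw [map_smul]; exact Submodule.smul_mem _ _ hx
    have h3 : TT g (com c) ≠ 0 := by
      intro h0
      apply hgc
      have := cou_TT g (com c)
      rw [lid_com, h0, map_zero] at this
      exact this.symm
    exact fin _ h1 h3 h2

end HH

end Pool.Agent.HopfTwo
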