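import Pool.Agent.H.MP_d9e773_al.helper54.Filt

set_option autoImplicit false

/-!
# The Gelfand–Kirillov dimension of `H` is 2
-/

namespace Pool.Agent.HopfTwo

open MvPolynomial Filter Topology
open scoped TensorProduct

lemma limsup_of_bounds (a : ℕ → ℕ) (c C : ℝ) (hc : 0 < c) (hC : 0 < C)
    (h1 : ∀ n : ℕ, 1 ≤ n → c * (n : ℝ) ^ 2 ≤ a n) (h2 : ∀ n : ℕ, 1 ≤ n → (a n : ℝ) ≤ C * n ^ 2) :
    limsup (fun n : ℕ => (((Real.log (a n : ℝ)) / Real.log (n : ℝ) : ℝ) : EReal)) atTop = 2 := by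
  have hlog : Tendsto (fun n : ℕ => Real.log (n : ℝ)) atTop atTop :=
    Real.tendsto_log_atTop.comp tendsto_natCast_atTop_atTop
  have hl : Tendsto (fun n : ℕ => 2 + Real.log c / Real.log (n : ℝ)) atTop (𝓝 2) := by
    have := (tendsto_const_nhds (x := Real.log c)).div_atTop hlog
    simpa using this.const_add 2
  have hu : Tendsto (fun n : ℕ => 2 + Real.log C / Real.log (n : ℝ)) atTop (𝓝 2) := by
    have := (tendsto_const_nhds (x := Real.log C)).div_atTop hlog
    simpa using this.const_add 2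
  have key : Tendsto (fun n : ℕ => Real.log (a n : ℝ) / Real.log (n : ℝ)) atTop (𝓝 2) := by
    apply tendsto_of_tendsto_of_tendsto_of_le_of_le' hl hu
    · filter_upwards [eventually_ge_atTop 2] with n hn
      have hn1 : (1 : ℝ) < n := by exact_mod_cast (by omega : 1 < n)
      have hln : 0 < Real.log (n : ℝ) := Real.log_pos hn1
      have hn0 : (0 : ℝ) < n := by linarith
      rw [le_div_iff₀ hln, add_mul, div_mul_cancel₀ _ hln.ne']
      have h3 : Real.log (c * (n : ℝ) ^ 2) ≤ Real.log (a n : ℝ) :=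
        Real.log_le_log (by positivity) (h1 n (by omega))
      rw [Real.log_mul hc.ne' (by positivity), Real.log_pow] at h3
      push_cast at h3
      linarith
    · filter_upwards [eventually_ge_atTop 2] with n hn
      have hn1 : (1 : ℝ) < n := by exact_mod_cast (by omega : 1 < n)
      have hln : 0 < Real.log (n : ℝ) := Real.log_pos hn1
      have hn0 : (0 : ℝ) < n := by linarith
      rw [div_le_iff₀ hln, add_mul, div_mul_cancel₀ _ hln.ne']
      have ha : (0 : ℝ) < a n := lt_of_lt_of_le (by positivity) (h1 n (by omega))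
      have h3 : Real.log (a n : ℝ) ≤ Real.log (C * (n : ℝ) ^ 2) :=
        Real.log_le_log ha (h2 n (by omega))
      rw [Real.log_mul hC.ne' (by positivity), Real.log_pow] at h3
      push_cast at h3
      linarith
  have key2 : Tendsto (fun n : ℕ => ((Real.log (a n : ℝ) / Real.log (n : ℝ) : ℝ) : EReal)) atTop
      (𝓝 ((2 : ℝ) : EReal)) := EReal.tendsto_coe.2 key
  rw [key2.limsup_eq]
  norm_cast

namespace HH

variable {k : Type} [Field k]

/-- coefficients -/
noncomputable def cf (n : ℕ) : HH k →ₗ[k] ((Fin (n + 1) × Fin (n + 1) → k) ×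
    (Fin (n + 1) × Fin (n + 1) → k)) where
  toFun a := (fun ij => coeff (mm ij.1 ij.2) a.u, fun ij => coeff (mm ij.1 ij.2) a.v)
  map_add' a b := by ext <;> simp
  map_smul' c a := by ext <;> simp

lemma eq_zero_of_coeff {n : ℕ} {u : PA k} (h : u.totalDegree ≤ n)
    (h0 : ∀ i j : Fin (n + 1), coeff (mm i j) u = 0) : u = 0 := by
  ext m
  rw [coeff_zero]
  by_contra hm
  have h1 := (le_totalDegree (mem_support_iff.2 hm)).trans h
  have h3 : (m.sum fun _ e => e) = m 0 + m 1 := by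
    rw [Finsupp.sum_fintype _ _ (by simp)]; simp
  rw [h3] at h1
  apply hm
  have := h0 ⟨m 0, by omega⟩ ⟨m 1, by omega⟩
  simpa [mm_eta] using this

lemma cf_inj (n : ℕ) : Function.Injective ((cf (k := k) n).domRestrict (Fl n)) := by
  rw [← LinearMap.ker_eq_bot, LinearMap.ker_eq_bot']
  rintro ⟨a, ha⟩ h
  obtain ⟨ha1, ha2⟩ := mem_Fl.1 ha
  simp only [LinearMap.domRestrict_apply, cf, LinearMap.coe_mk, AddHom.coe_mk,
    Prod.mk_eq_zero] at h
  obtain ⟨hu, hv⟩ := h
  have e1 : a.u = 0 := eq_zero_of_coeff ha1 (fun i j => congrFun hu (i, j))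
  have e2 : a.v = 0 := by
    rcases ha2 with ha2 | ha2
    · exact ha2
    · exact eq_zero_of_coeff (n := n) (by omega) (fun i j => congrFun hv (i, j))
  exact Subtype.ext (HH.ext e1 e2)

instance Fl_finite (n : ℕ) : Module.Finite k (Fl (k := k) n) :=
  Module.Finite.of_injective _ (cf_inj n)

lemma finrank_Fl_le (n : ℕ) : Module.finrank k (Fl (k := k) n) ≤ 2 * (n + 1) ^ 2 := by
  refine (LinearMap.finrank_le_finrank_of_injective (cf_inj n)).trans ?_
  simp [Module.finrank_prod, Module.finrank_fintype_fun_eq_card]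
  apply le_of_eq; ring

variable [CharP k 2]

lemma le_Fl (V : Submodule k (HH k)) (hV : FiniteDimensional k V) : ∃ m, V ≤ Fl m := by
  classical
  obtain ⟨S, hS⟩ := (Submodule.fg_iff_finiteDimensional V).2 hV
  choose d hd using exists_Fl (k := k)
  refine ⟨S.sup d, ?_⟩
  rw [← hS, Submodule.span_le]
  intro a ha
  exact Fl_mono (Finset.le_sup (f := d) ha) (hd a)

lemma pow_le_Fl (V : Submodule k (HH k)) (m : ℕ) (h : V ≤ Fl m) (n : ℕ) : V ^ n ≤ Fl (n * m) := by
  induction n with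
  | zero =>
    rw [pow_zero, Submodule.one_le]
    exact one_mem_Fl _
  | succ n ih =>
    rw [pow_succ, Submodule.mul_le, Nat.succ_mul]
    intro a ha b hb
    exact mul_mem_Fl (ih ha) (h hb)

lemma pow_mono' (V : Submodule k (HH k)) (h1 : (1 : HH k) ∈ V) {n m : ℕ} (h : n ≤ m) :
    V ^ n ≤ V ^ m := by
  obtain ⟨e, rfl⟩ := Nat.exists_eq_add_of_le h
  rw [pow_add]
  intro a ha
  have h2 : (1 : HH k) ∈ V ^ e := by
    have := Submodule.pow_mem_pow V h1 e
    rwa [one_pow] at this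
  have := Submodule.mul_mem_mul ha h2
  rwa [mul_one] at this

lemma exists_pow_mem (V : Submodule k (HH k)) (h1 : (1 : HH k) ∈ V)
    (h : Algebra.adjoin k (V : Set (HH k)) = ⊤) (a : HH k) : ∃ n, a ∈ V ^ n := by
  have ha : a ∈ Algebra.adjoin k (V : Set (HH k)) := by rw [h]; trivial
  induction ha using Algebra.adjoin_induction with
  | mem x hx => exact ⟨1, by simpa using hx⟩
  | algebraMap r =>
    refine ⟨1, ?_⟩
    rw [pow_one, Algebra.algebraMap_eq_smul_one]
    exact V.smul_mem _ h1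
  | add x y _ _ hx hy =>
    obtain ⟨n, hn⟩ := hx
    obtain ⟨m, hm⟩ := hy
    exact ⟨n + m, add_mem (pow_mono' V h1 (Nat.le_add_right _ _) hn)
      (pow_mono' V h1 (Nat.le_add_left _ _) hm)⟩
  | mul x y _ _ hx hy =>
    obtain ⟨n, hn⟩ := hx
    obtain ⟨m, hm⟩ := hy
    exact ⟨n + m, by rw [pow_add]; exact Submodule.mul_mem_mul hn hm⟩

omit [CharP k 2] in
lemma monomial_mm (i j : ℕ) : (monomial (mm i j) 1 : PA k) = X 0 ^ i * X 1 ^ j := by
  rw [monomial_eq, Finsupp.prod_fintype _ _ (by simp)]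
  simp

lemma mon_li (q : ℕ) : LinearIndependent k (fun ij : Fin (q + 1) × Fin (q + 1) =>
    (io (X 0 ^ (ij.1 : ℕ) * X 1 ^ (ij.2 : ℕ) : PA k) : HH k)) := by
  have h1 : LinearIndependent k (fun ij : Fin (q + 1) × Fin (q + 1) =>
      (X 0 ^ (ij.1 : ℕ) * X 1 ^ (ij.2 : ℕ) : PA k)) := by
    have h2 := (basisMonomials (Fin 2) k).linearIndependent
    have h3 := h2.comp (fun ij : Fin (q + 1) × Fin (q + 1) => mm ij.1 ij.2) (by
      rintro ⟨i, j⟩ ⟨i', j'⟩ h
      have := mm_inj.1 h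
      ext
      · exact this.1
      · exact this.2)
    have h4 : (fun ij : Fin (q + 1) × Fin (q + 1) =>
      (X 0 ^ (ij.1 : ℕ) * X 1 ^ (ij.2 : ℕ) : PA k)) = (basisMonomials (Fin 2) k) ∘
        (fun ij : Fin (q + 1) × Fin (q + 1) => mm ij.1 ij.2) := by
      funext ij
      simp [monomial_mm]
    rw [h4]
    exact h3
  refine h1.map' (io (k := k)).toLinearMap ?_
  rw [LinearMap.ker_eq_bot']
  intro u hu
  exact congrArg HH.u hu

lemma finrank_ge (V : Submodule k (HH k)) (hV : FiniteDimensional k V) (h1 : (1 : HH k) ∈ V)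
    (h : Algebra.adjoin k (V : Set (HH k)) = ⊤) :
    ∃ r : ℕ, 1 ≤ r ∧ ∀ q n : ℕ, r * (2 * q) ≤ n → (q + 1) ^ 2 ≤ Module.finrank k ↥(V ^ n) := by
  obtain ⟨r0, hr0⟩ := exists_pow_mem V h1 h (io (X 0))
  obtain ⟨r1, hr1⟩ := exists_pow_mem V h1 h (io (X 1))
  refine ⟨r0 + r1 + 1, by omega, ?_⟩
  intro q n hqn
  have hfin : FiniteDimensional k ↥(V ^ n) := by
    have hfg : V.FG := (Submodule.fg_iff_finiteDimensional V).2 hV
    exact (Submodule.fg_iff_finiteDimensional _).1 (hfg.pow n)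
  have hmem : ∀ ij : Fin (q + 1) × Fin (q + 1),
      (io (X 0 ^ (ij.1 : ℕ) * X 1 ^ (ij.2 : ℕ) : PA k) : HH k) ∈ V ^ n := by
    rintro ⟨⟨i, hi⟩, ⟨j, hj⟩⟩
    simp only [map_mul, map_pow]
    have e0 : io (X 0) ∈ V ^ (r0 + r1 + 1) := pow_mono' V h1 (by omega) hr0
    have e1 : io (X 1) ∈ V ^ (r0 + r1 + 1) := pow_mono' V h1 (by omega) hr1
    have e2 := Submodule.pow_mem_pow _ e0 i
    have e3 := Submodule.pow_mem_pow _ e1 j
    have e4 := Submodule.mul_mem_mul e2 e3
    rw [← pow_mul, ← pow_mul, ← pow_add] at e4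
    refine pow_mono' V h1 ?_ e4
    have : (r0 + r1 + 1) * i + (r0 + r1 + 1) * j ≤ (r0 + r1 + 1) * (2 * q) := by
      rw [← mul_add]
      exact Nat.mul_le_mul_left _ (by omega)
    omega
  have hli := mon_li (k := k) q
  have hspan : Submodule.span k (Set.range (fun ij : Fin (q + 1) × Fin (q + 1) =>
    (io (X 0 ^ (ij.1 : ℕ) * X 1 ^ (ij.2 : ℕ) : PA k) : HH k))) ≤ V ^ n := by
    rw [Submodule.span_le]
    rintro _ ⟨ij, rfl⟩
    exact hmem ij
  have h5 := Submodule.finrank_mono hspan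
  rw [finrank_span_eq_card hli] at h5
  simpa [sq] using h5

theorem gk (V : Submodule k (HH k)) (hV : FiniteDimensional k V) (h1 : (1 : HH k) ∈ V)
    (h : Algebra.adjoin k (V : Set (HH k)) = ⊤) :
    Filter.limsup (fun n : ℕ =>
        (((Real.log (Module.finrank k ↥(V ^ n) : ℝ)) / Real.log (n : ℝ) : ℝ) : EReal))
        Filter.atTop = 2 := by
  obtain ⟨r, hr1, hr⟩ := finrank_ge V hV h1 h
  obtain ⟨m, hm⟩ := le_Fl V hV
  have hr0 : (0 : ℝ) < r := by exact_mod_cast hr1
  refine limsup_of_bounds (fun n => Module.finrank k ↥(V ^ n)) (1 / (2 * r) ^ 2) (2 * (m + 1) ^ 2)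
    (by positivity) (by positivity) ?_ ?_
  · intro n hn
    have h2 := hr (n / (2 * r)) n (by
      have := Nat.div_mul_le_self n (2 * r)
      calc r * (2 * (n / (2 * r))) = n / (2 * r) * (2 * r) := by ring
        _ ≤ n := this)
    have h3 : n < (n / (2 * r) + 1) * (2 * r) := by
      have h4 := Nat.div_add_mod n (2 * r)
      have h5 := Nat.mod_lt n (show 0 < 2 * r by omega)
      nlinarith
    have h4 : (n : ℝ) ≤ ((n / (2 * r) : ℕ) + 1 : ℝ) * (2 * r) := by exact_mod_cast h3.le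
    have h5 : (((n / (2 * r) : ℕ) + 1 : ℝ)) ^ 2 ≤ (Module.finrank k ↥(V ^ n) : ℝ) := by
      exact_mod_cast h2
    refine le_trans ?_ h5
    rw [div_mul_eq_mul_div, one_mul, div_le_iff₀ (by positivity), ← mul_pow]
    exact pow_le_pow_left₀ (by positivity) h4 2
  · intro n hn
    have h2 : Module.finrank k ↥(V ^ n) ≤ 2 * (n * m + 1) ^ 2 :=
      (Submodule.finrank_mono (pow_le_Fl V m hm n)).trans (finrank_Fl_le (n * m))
    have h3 : (Module.finrank k ↥(V ^ n) : ℝ) ≤ 2 * (n * m + 1) ^ 2 := by exact_mod_cast h2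
    refine h3.trans ?_
    have hn1 : (1 : ℝ) ≤ n := by exact_mod_cast hn
    have h4 : ((n : ℝ) * m + 1) ≤ (m + 1) * n := by nlinarith
    have h5 : ((n : ℝ) * m + 1) ^ 2 ≤ ((m + 1) * n) ^ 2 := pow_le_pow_left₀ (by positivity) h4 2
    nlinarith

end HH

end Pool.Agent.HopfTwo
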