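import Pool.Agent.H.MP_d9e773_al.helper54.Bialg

set_option autoImplicit false

/-!
# The Hopf algebra structure on `H`
-/

namespace Pool.Agent.HopfTwo

open MvPolynomial
open scoped TensorProduct

namespace HH

variable {k : Type} [Field k] [CharP k 2]

/-- `γ = x² y + x (x² + x⁴)` -/
noncomputable def gam : PA k := X 0 ^ 2 * X 1 + X 0 * (X 0 ^ 2 + X 0 ^ 4)

lemma gam_eq : (gam : PA k) ^ 2 + dl k gam = 0 := by
  have h2 := two_zero k
  have hP : dl k (X 0 ^ 2 : PA k) = 0 := dl_sq k _
  have hQ : dl k (X 0 ^ 2 + X 0 ^ 4 : PA k) = 0 := by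
    have h4 : (X 0 : PA k) ^ 4 = (X 0 ^ 2) ^ 2 := by ring
    rw [map_add, h4, dl_sq, dl_sq, add_zero]
  have h : dl k (gam : PA k) = X 0 ^ 2 * (X 1 ^ 2 + X 0 ^ 4 + X 0 ^ 8) +
      (X 0 ^ 2 + X 0 ^ 4) * X 1 ^ 2 := by
    rw [gam, map_add, Derivation.leibniz, Derivation.leibniz, hP, hQ, dl_X0, dl_X1]
    simp only [smul_eq_mul]
    ring
  rw [h, gam]
  linear_combination (X 0 ^ 2 * X 1 * X 0 * (X 0 ^ 2 + X 0 ^ 4) + X 0 ^ 2 * X 1 ^ 2 +
    X 0 ^ 6 + X 0 ^ 10 + X 0 ^ 4 * X 1 ^ 2 + X 0 ^ 8) * h2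

/-- the antipode -/
noncomputable def ant : HH k →ₗ[k] HH k where
  toFun a := ⟨a.u + dl k a.v + gam * a.v, a.v⟩
  map_add' a b := by ext1 <;> simp <;> ring
  map_smul' c a := by ext1 <;> simp

@[simp] lemma ant_u (a : HH k) : (ant a).u = a.u + dl k a.v + gam * a.v := rfl
@[simp] lemma ant_v (a : HH k) : (ant a).v = a.v := rfl

lemma ant_mul (a b : HH k) : ant (a * b) = ant b * ant a := by
  have h2 := two_zero k
  have hg := gam_eq (k := k)
  ext1
  · simp only [ant_u, ant_v, mul_u, mul_v, map_add, Derivation.leibniz, smul_eq_mul, dl_dl]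
    linear_combination (a.v * dl k b.u - b.v * dl k a.v * gam) * h2 - (a.v * b.v) * hg
  · simp only [ant_u, ant_v, mul_v]
    linear_combination (-(b.v * a.v * gam) - b.v * dl k a.v) * h2

lemma ant_one : ant (1 : HH k) = 1 := by ext1 <;> simp

lemma ant_io (u : PA k) : ant (io u) = io u := by ext1 <;> simp

lemma ant_zz : ant (zz : HH k) = io gam + zz := by ext1 <;> simp

/-- `m (S ⊗ 1)` -/
noncomputable def mL : HH k ⊗[k] HH k →ₗ[k] HH k := LinearMap.mul' k (HH k) ∘ₗ ant.rTensor (HH k)

/-- `m (1 ⊗ S)` -/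
noncomputable def mR : HH k ⊗[k] HH k →ₗ[k] HH k := LinearMap.mul' k (HH k) ∘ₗ ant.lTensor (HH k)

@[simp] lemma mL_tmul (a b : HH k) : mL (a ⊗ₜ b) = ant a * b := by simp [mL]
@[simp] lemma mR_tmul (a b : HH k) : mR (a ⊗ₜ b) = a * ant b := by simp [mR]

lemma mL_mul (t : HH k ⊗[k] HH k) (a b : HH k) : mL (t * a ⊗ₜ b) = ant a * mL t * b := by
  induction t using TensorProduct.induction_on with
  | zero => simp
  | tmul c d => simp [ant_mul, mul_assoc]
  | add s t hs ht => simp only [add_mul, mul_add, map_add, hs, ht]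

lemma mR_mul (t : HH k ⊗[k] HH k) (a b : HH k) : mR (a ⊗ₜ b * t) = a * mR t * ant b := by
  induction t using TensorProduct.induction_on with
  | zero => simp
  | tmul c d => simp [ant_mul, mul_assoc]
  | add s t hs ht => simp only [add_mul, mul_add, map_add, hs, ht]

lemma mL_mul' (s t : HH k ⊗[k] HH k) (c : k) (h : mL t = algebraMap k (HH k) c) :
    mL (t * s) = algebraMap k (HH k) c * mL s := by
  induction s using TensorProduct.induction_on with
  | zero => simp
  | tmul a b =>
    rw [mL_mul, h, mL_tmul, ← Algebra.commutes, mul_assoc]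
  | add s t hs ht => simp only [mul_add, map_add, hs, ht]

lemma mR_mul' (s t : HH k ⊗[k] HH k) (c : k) (h : mR t = algebraMap k (HH k) c) :
    mR (s * t) = algebraMap k (HH k) c * mR s := by
  induction s using TensorProduct.induction_on with
  | zero => simp
  | tmul a b =>
    rw [mR_mul, h, mR_tmul, ← Algebra.commutes, mul_assoc]
  | add s t hs ht => simp only [mul_add, add_mul, map_add, hs, ht]

lemma h_add_self (a : HH k) : a + a = 0 := by rw [← two_mul, h_two, zero_mul]

lemma mL_pr (u : PA k) : mL (pr (io u)) = 0 := by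
  simp [pr, ant_io, ant_one, h_add_self]

lemma mR_pr (u : PA k) : mR (pr (io u)) = 0 := by
  simp [pr, ant_io, ant_one, h_add_self]

lemma io_gam : (io gam : HH k) = io (X 0 ^ 2) * io (X 1) + io (X 0) * io (X 0 ^ 2 + X 0 ^ 4) := by
  rw [gam, map_add, map_mul, map_mul]

lemma mL_dz : mL (dz : HH k ⊗[k] HH k) = 0 := by
  rw [dz, ww_eq, map_add, map_add]
  simp only [pr, map_add mL, mL_tmul, ant_io, ant_zz, ant_one, mul_one, one_mul]
  rw [io_gam]
  generalize (io (X 0 ^ 2) * io (X 1) : HH k) = a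
  generalize (io (X 0) * io (X 0 ^ 2 + X 0 ^ 4) : HH k) = b
  have : a + b + zz + zz + (a + b) = (a + a) + (b + b) + (zz + zz) := by abel
  rw [this, h_add_self a, h_add_self b, h_add_self zz]; simp

lemma mR_dz : mR (dz : HH k ⊗[k] HH k) = 0 := by
  rw [dz, ww_eq, map_add, map_add]
  simp only [pr, map_add mR, mR_tmul, ant_io, ant_zz, ant_one, mul_one, one_mul]
  rw [io_gam]
  generalize (io (X 0 ^ 2) * io (X 1) : HH k) = a
  generalize (io (X 0) * io (X 0 ^ 2 + X 0 ^ 4) : HH k) = b
  have : zz + (a + b + zz) + (a + b) = (a + a) + (b + b) + (zz + zz) := by abel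
  rw [this, h_add_self a, h_add_self b, h_add_self zz]; simp

lemma mL_com (a : HH k) : mL (com a) = algebraMap k (HH k) (cou a) := by
  have ha : a ∈ Algebra.adjoin k ({io (X 0), io (X 1), zz} : Set (HH k)) := by
    rw [adjoin_eq_top]; trivial
  induction ha using Algebra.adjoin_induction with
  | mem x hx =>
    simp only [Set.mem_insert_iff, Set.mem_singleton_iff] at hx
    rcases hx with rfl | rfl | rfl
    · rw [com_X, mL_pr, cou_X, map_zero]
    · rw [com_X, mL_pr, cou_X, map_zero]
    · rw [com_zz, mL_dz, cou_zz, map_zero]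
  | algebraMap r =>
    rw [AlgHom.commutes, AlgHom.commutes, Algebra.TensorProduct.algebraMap_apply, mL_tmul, mul_one,
      Algebra.algebraMap_eq_smul_one, map_smul, ant_one, Algebra.algebraMap_self]
    simp [Algebra.algebraMap_eq_smul_one]
  | add x y _ _ hx hy => simp only [map_add, hx, hy]
  | mul x y _ _ hx hy =>
    rw [map_mul, mL_mul' _ _ _ hx, hy, ← map_mul, ← map_mul]

lemma mR_com (a : HH k) : mR (com a) = algebraMap k (HH k) (cou a) := by
  have ha : a ∈ Algebra.adjoin k ({io (X 0), io (X 1), zz} : Set (HH k)) := by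
    rw [adjoin_eq_top]; trivial
  induction ha using Algebra.adjoin_induction with
  | mem x hx =>
    simp only [Set.mem_insert_iff, Set.mem_singleton_iff] at hx
    rcases hx with rfl | rfl | rfl
    · rw [com_X, mR_pr, cou_X, map_zero]
    · rw [com_X, mR_pr, cou_X, map_zero]
    · rw [com_zz, mR_dz, cou_zz, map_zero]
  | algebraMap r =>
    rw [AlgHom.commutes, AlgHom.commutes, Algebra.TensorProduct.algebraMap_apply, mR_tmul, ant_one,
      mul_one, Algebra.algebraMap_self]
    simp
  | add x y _ _ hx hy => simp only [map_add, hx, hy]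
  | mul x y _ _ hx hy =>
    rw [map_mul, mR_mul' _ _ _ hy, hx, ← map_mul, mul_comm, ← map_mul]

noncomputable instance : HopfAlgebra k (HH k) where
  antipode := ant
  mul_antipode_rTensor_comul := by
    ext1 a
    exact mL_com a
  mul_antipode_lTensor_comul := by
    ext1 a
    exact mR_com a

lemma comul_eq (a : HH k) : Coalgebra.comul (R := k) a = com a := rfl

lemma counit_eq (a : HH k) : Coalgebra.counit (R := k) a = cou a := rfl

end HH

end Pool.Agent.HopfTwo
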