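import Pool.Agent.H.MP_d9e773_al.helper54.Ring

set_option autoImplicit false

/-!
# `g² + δ(g) = f` has no solution in `k[x, y]`
-/

namespace Pool.Agent.HopfTwo

open MvPolynomial

section general
variable {k : Type} [Field k]

lemma dl_eq (g : PA k) :
    dl k g = pderiv 0 g * X 1 ^ 2 + pderiv 1 g * (X 1 ^ 2 + X 0 ^ 4 + X 0 ^ 8) := by
  have : dl k = (X 1 ^ 2 : PA k) • pderiv 0 + (X 1 ^ 2 + X 0 ^ 4 + X 0 ^ 8 : PA k) • pderiv 1 := by
    apply MvPolynomial.derivation_ext
    intro i
    fin_cases i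
    · simp [Derivation.add_apply, Derivation.smul_apply]
    · simp [Derivation.add_apply, Derivation.smul_apply]
  rw [this]
  simp only [Derivation.add_apply, Derivation.smul_apply, smul_eq_mul]
  ring

/-- the exponent `(i, j)` -/
noncomputable def mm (i j : ℕ) : Fin 2 →₀ ℕ := Finsupp.single 0 i + Finsupp.single 1 j

@[simp] lemma mm_0 (i j : ℕ) : mm i j 0 = i := by simp [mm]
@[simp] lemma mm_1 (i j : ℕ) : mm i j 1 = j := by simp [mm]

lemma mm_eta (m : Fin 2 →₀ ℕ) : mm (m 0) (m 1) = m := by
  ext i; fin_cases i <;> simp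

lemma mm_inj {i j i' j' : ℕ} : mm i j = mm i' j' ↔ i = i' ∧ j = j' := by
  constructor
  · intro h
    exact ⟨by simpa using DFunLike.congr_fun h 0, by simpa using DFunLike.congr_fun h 1⟩
  · rintro ⟨rfl, rfl⟩; rfl

lemma coeff_mul_X0_pow (a b e : ℕ) (p : PA k) :
    coeff (mm a b) (p * X 0 ^ e) = if e ≤ a then coeff (mm (a - e) b) p else 0 := by
  rw [X_pow_eq_monomial, coeff_mul_monomial', mul_one]
  have h1 : (Finsupp.single 0 e ≤ mm a b) ↔ e ≤ a := by
    rw [Finsupp.single_le_iff]; simp
  have h2 : mm a b - Finsupp.single 0 e = mm (a - e) b := by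
    ext i; fin_cases i <;> simp
  rw [h2]
  simp only [h1]

lemma coeff_mul_X1_pow (a b e : ℕ) (p : PA k) :
    coeff (mm a b) (p * X 1 ^ e) = if e ≤ b then coeff (mm a (b - e)) p else 0 := by
  rw [X_pow_eq_monomial, coeff_mul_monomial', mul_one]
  have h1 : (Finsupp.single 1 e ≤ mm a b) ↔ e ≤ b := by
    rw [Finsupp.single_le_iff]; simp
  have h2 : mm a b - Finsupp.single 1 e = mm a (b - e) := by
    ext i; fin_cases i <;> simp
  rw [h2]
  simp only [h1]

lemma coeff_pderiv0 (a b : ℕ) (p : PA k) :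
    coeff (mm a b) (pderiv 0 p) = coeff (mm (a + 1) b) p * ((a : k) + 1) := by
  rw [coeff_pderiv]
  have h2 : mm a b + Finsupp.single 0 1 = mm (a + 1) b := by
    ext i; fin_cases i <;> simp
  rw [h2, mm_0]

lemma coeff_pderiv1 (a b : ℕ) (p : PA k) :
    coeff (mm a b) (pderiv 1 p) = coeff (mm a (b + 1)) p * ((b : k) + 1) := by
  rw [coeff_pderiv]
  have h2 : mm a b + Finsupp.single 1 1 = mm a (b + 1) := by
    ext i; fin_cases i <;> simp
  rw [h2, mm_1]

lemma totalDegree_pderiv_le (i : Fin 2) (g : PA k) :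
    (pderiv i g).totalDegree ≤ g.totalDegree - 1 := by
  rw [totalDegree, Finset.sup_le_iff]
  intro m hm
  rw [mem_support_iff, coeff_pderiv] at hm
  have h1 : coeff (m + Finsupp.single i 1) g ≠ 0 := left_ne_zero_of_mul hm
  have h2 := le_totalDegree (mem_support_iff.2 h1)
  have h3 : ((m + Finsupp.single i 1).sum fun _ e => e) = (m.sum fun _ e => e) + 1 := by
    rw [Finsupp.sum_add_index']
    · simp
    · simp
    · simp
  omega

lemma totalDegree_dl_le (g : PA k) : (dl k g).totalDegree ≤ g.totalDegree + 7 := by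
  by_cases hD : g.totalDegree = 0
  · obtain ⟨c, hc⟩ : ∃ c, g = C c := ⟨coeff 0 g, totalDegree_eq_zero_iff_eq_C.1 hD⟩
    rw [hc, ← MvPolynomial.algebraMap_eq, Derivation.map_algebraMap]; simp
  · rw [dl_eq]
    refine (totalDegree_add _ _).trans (max_le ?_ ?_)
    · refine (totalDegree_mul _ _).trans ?_
      have h1 := totalDegree_pderiv_le 0 g
      have h2 : (X 1 ^ 2 : PA k).totalDegree ≤ 2 := by
        refine (totalDegree_pow _ _).trans ?_
        simp
      omega
    · refine (totalDegree_mul _ _).trans ?_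
      have h1 := totalDegree_pderiv_le 1 g
      have h2 : (X 1 ^ 2 + X 0 ^ 4 + X 0 ^ 8 : PA k).totalDegree ≤ 8 := by
        refine (totalDegree_add _ _).trans (max_le ?_ ?_)
        · refine (totalDegree_add _ _).trans (max_le ?_ ?_)
          · refine (totalDegree_pow _ _).trans ?_
            simp
          · refine (totalDegree_pow _ _).trans ?_
            simp
        · refine (totalDegree_pow _ _).trans ?_
          simp
      omega

lemma totalDegree_ff_le : (ff k).totalDegree ≤ 6 := by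
  unfold ff
  refine (totalDegree_mul _ _).trans ?_
  have h1 : (X 1 ^ 2 : PA k).totalDegree ≤ 2 := by
    refine (totalDegree_pow _ _).trans ?_
    simp
  have h2 : (X 0 ^ 2 + X 0 ^ 4 : PA k).totalDegree ≤ 4 := by
    refine (totalDegree_add _ _).trans (max_le ?_ ?_)
    · refine (totalDegree_pow _ _).trans ?_
      simp
    · refine (totalDegree_pow _ _).trans ?_
      simp
  omega

lemma coeff_dl (a b : ℕ) (g : PA k) :
    coeff (mm a b) (dl k g) =
      (if 2 ≤ b then coeff (mm (a + 1) (b - 2)) g * ((a : k) + 1) else 0) +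
      (if 2 ≤ b then coeff (mm a (b - 2 + 1)) g * (((b - 2 : ℕ) : k) + 1) else 0) +
      (if 4 ≤ a then coeff (mm (a - 4) (b + 1)) g * ((b : k) + 1) else 0) +
      (if 8 ≤ a then coeff (mm (a - 8) (b + 1)) g * ((b : k) + 1) else 0) := by
  rw [dl_eq, mul_add, mul_add, coeff_add, coeff_add, coeff_add, coeff_mul_X1_pow,
    coeff_mul_X1_pow, coeff_mul_X0_pow, coeff_mul_X0_pow]
  simp only [coeff_pderiv0, coeff_pderiv1]
  ring

lemma coeff_one' (a b : ℕ) : coeff (mm a b) (1 : PA k) = if a = 0 ∧ b = 0 then 1 else 0 := by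
  classical
  rw [coeff_one]
  have : (0 : Fin 2 →₀ ℕ) = mm a b ↔ a = 0 ∧ b = 0 := by
    have h0 : (0 : Fin 2 →₀ ℕ) = mm 0 0 := by simp [mm]
    rw [h0, mm_inj]
    constructor
    · rintro ⟨rfl, rfl⟩; exact ⟨rfl, rfl⟩
    · rintro ⟨rfl, rfl⟩; exact ⟨rfl, rfl⟩
  simp only [this]

lemma coeff_ff (a b : ℕ) :
    coeff (mm a b) (ff k) = if b = 2 ∧ (a = 2 ∨ a = 4) then 1 else 0 := by
  have : ff k = 1 * X 0 ^ 2 * X 1 ^ 2 + 1 * X 0 ^ 4 * X 1 ^ 2 := by unfold ff; ring
  rw [this, coeff_add, coeff_mul_X1_pow, coeff_mul_X1_pow]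
  simp only [coeff_mul_X0_pow, coeff_one']
  split_ifs <;> first | omega | simp

end general

section char2
variable {k : Type} [Field k]

lemma coeff_zero_of_lt (g : PA k) (n a b : ℕ) (h : g.totalDegree ≤ n) (hab : n < a + b) :
    coeff (mm a b) g = 0 := by
  apply notMem_support_iff.1
  intro hm
  have := le_totalDegree hm
  have h3 : ((mm a b).sum fun _ e => e) = a + b := by
    unfold mm
    rw [Finsupp.sum_add_index']
    · simp
    · simp
    · simp
  omega

variable [CharP k 2]

lemma coeff_sq_even (a b : ℕ) (g : PA k) :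
    coeff (mm (2 * a) (2 * b)) (g ^ 2) = coeff (mm a b) g ^ 2 := by
  have : ExpChar k 2 := ExpChar.prime Nat.prime_two
  rw [← map_frobenius_expand 2, coeff_map]
  have : mm (2 * a) (2 * b) = 2 • mm a b := by
    ext i; fin_cases i <;> simp
  rw [this, coeff_expand_smul _ two_ne_zero]
  rfl

lemma coeff_sq_odd (a b : ℕ) (g : PA k) (h : ¬ 2 ∣ a ∨ ¬ 2 ∣ b) :
    coeff (mm a b) (g ^ 2) = 0 := by
  have : ExpChar k 2 := ExpChar.prime Nat.prime_two
  rw [← map_frobenius_expand 2, coeff_map]
  rcases h with h | h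
  · rw [coeff_expand_of_not_dvd (i := 0)]
    · simp
    · simpa using h
  · rw [coeff_expand_of_not_dvd (i := 1)]
    · simp
    · simpa using h

lemma no_solution (g : PA k) : g ^ 2 + dl k g ≠ ff k := by
  intro h
  have h2k : (2 : k) = 0 := by exact_mod_cast CharP.cast_eq_zero k 2
  -- degree bound
  have hdeg : g.totalDegree ≤ 7 := by
    by_cases h0 : g = 0
    · rw [h0]; simp
    have hg2 : g ^ 2 = ff k - dl k g := by rw [← h]; ring
    have h3 : (g ^ 2).totalDegree = g.totalDegree + g.totalDegree := by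
      rw [sq, totalDegree_mul_of_isDomain h0 h0]
    have h4 : (g ^ 2).totalDegree ≤ max 6 (g.totalDegree + 7) := by
      rw [hg2]
      refine (totalDegree_sub _ _).trans (max_le_max totalDegree_ff_le (totalDegree_dl_le g))
    omega
  have hz : ∀ a b : ℕ, 7 < a + b → coeff (mm a b) g = 0 := fun a b hab =>
    coeff_zero_of_lt g 7 a b hdeg hab
  -- the equations
  have E : ∀ a b : ℕ, coeff (mm a b) (g ^ 2) + coeff (mm a b) (dl k g) = coeff (mm a b) (ff k) := by
    intro a b
    rw [← h, coeff_add]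
  have Ee : ∀ a b : ℕ, coeff (mm a b) g ^ 2 + coeff (mm (2 * a) (2 * b)) (dl k g) =
      coeff (mm (2 * a) (2 * b)) (ff k) := by
    intro a b
    rw [← coeff_sq_even]; exact E _ _
  have e11 : coeff (mm 1 1) g = 0 := by
    have := E 0 3
    rw [coeff_sq_odd 0 3 g (Or.inr (by norm_num)), coeff_dl, coeff_ff] at this
    norm_num at this
    linear_combination this - coeff (mm 0 2) g * h2k
  have e16 : coeff (mm 1 6) g = 0 := by
    have := Ee 1 6
    rw [coeff_dl, coeff_ff] at this
    norm_num [hz] at this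
    exact this
  have e25 : coeff (mm 2 5) g = 0 := by
    have := Ee 2 5
    rw [coeff_dl, coeff_ff] at this
    norm_num [hz] at this
    exact this
  have e34 : coeff (mm 3 4) g = 0 := by
    have := Ee 3 4
    rw [coeff_dl, coeff_ff] at this
    norm_num [hz] at this
    exact this
  have e07 : coeff (mm 0 7) g = 0 := by
    have := Ee 0 7
    rw [coeff_dl, coeff_ff] at this
    norm_num [hz] at this
    exact this
  have e43 : coeff (mm 4 3) g = 0 := by
    have := Ee 4 3
    rw [coeff_dl, coeff_ff] at this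
    norm_num [hz, e07] at this
    exact this
  have e61 : coeff (mm 6 1) g = 0 := by
    have := Ee 6 1
    rw [coeff_dl, coeff_ff] at this
    norm_num [hz, e43] at this
    exact this
  have e14 : coeff (mm 1 4) g = 0 := by
    have := Ee 1 4
    rw [coeff_dl, coeff_ff] at this
    norm_num [hz] at this
    exact this
  have e05 : coeff (mm 0 5) g = 0 := by
    have := Ee 0 5
    rw [coeff_dl, coeff_ff] at this
    norm_num [hz] at this
    exact this
  have e03 : coeff (mm 0 3) g = 0 := by
    have := Ee 0 3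
    rw [coeff_dl, coeff_ff] at this
    norm_num [hz, e14, e05] at this
    exact this
  have e41 : coeff (mm 4 1) g = 0 := by
    have := Ee 4 1
    rw [coeff_dl, coeff_ff] at this
    norm_num [hz, e43, e03] at this
    exact this
  have e50 := Ee 5 0
  rw [coeff_dl, coeff_ff] at e50
  norm_num [hz, e61] at e50
  have e30 := Ee 3 0
  rw [coeff_dl, coeff_ff] at e30
  norm_num [hz] at e30
  have e21 := Ee 2 1
  rw [coeff_dl, coeff_ff] at e21
  norm_num [hz, e41, e03] at e21
  have e11' := Ee 1 1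
  rw [coeff_dl, coeff_ff] at e11'
  norm_num [hz, e11] at e11'
  have key : ∀ r s t : k, r ^ 2 + s = 0 → t ^ 2 + s = 0 → s ^ 2 + r * 5 = 1 → t * 3 + s = 1 →
      False := by
    intro r s t h1 h2 h3 h4
    have hr : r = t := by
      have : (r - t) ^ 2 = 0 := by linear_combination h1 + h2 - (s + r * t) * h2k
      have := pow_eq_zero_iff (two_ne_zero) |>.1 this
      linear_combination this
    have hs : s ^ 2 + s = 0 := by
      rw [hr] at h3
      linear_combination h3 + h4 + (1 - 4 * t) * h2k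
    have ht : t ^ 2 + t = 1 := by linear_combination h2 + h4 - (t + s) * h2k
    have h5 : (1 : k) = 0 := by
      have h6 : t ^ 4 = s ^ 2 := by linear_combination (t ^ 2 - s) * h2
      have h7 : (t ^ 2 + t) ^ 2 = 1 := by rw [ht]; ring
      linear_combination -h7 + h6 + h2 + hs + (t ^ 3 - s) * h2k
    exact one_ne_zero h5
  exact key _ _ _ e50 e30 e21 e11'

end char2

end Pool.Agent.HopfTwo
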