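import Mathlib

set_option autoImplicit false

/-!
# Two-step Ore extensions with a character have infinitely many characters
-/

namespace Pool.Agent.HopfTwo

open Polynomial

section two

variable {k H : Type} [Field k] [Ring H] [Algebra k H]

/-- the normal form map `Σ p_j(T) S^j ↦ Σ p_j(x₀) x₁^j` -/
noncomputable def nf (x0 x1 : H) (P : k[X][X]) : H :=
  P.eval₂ ((aeval x0 : k[X] →ₐ[k] H) : k[X] →+* H) x1

lemma nf_add (x0 x1 : H) (P Q : k[X][X]) : nf x0 x1 (P + Q) = nf x0 x1 P + nf x0 x1 Q :=
  eval₂_add _ _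

lemma nf_monomial (x0 x1 : H) (j : ℕ) (p : k[X]) :
    nf x0 x1 (monomial j p) = aeval x0 p * x1 ^ j := by
  simp [nf, eval₂_monomial]

lemma nf_C (x0 x1 : H) (p : k[X]) : nf x0 x1 (C p) = aeval x0 p := by
  simp [nf, eval₂_C]

lemma nf_zero (x0 x1 : H) : nf x0 x1 (0 : k[X][X]) = 0 := by
  simp [nf]

lemma nf_C_mul (x0 x1 : H) (p : k[X]) (P : k[X][X]) :
    nf x0 x1 (C p * P) = aeval x0 p * nf x0 x1 P := by
  induction P using Polynomial.induction_on' with
  | add P Q hP hQ => rw [mul_add, nf_add, nf_add, hP, hQ, mul_add]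
  | monomial j q => rw [C_mul_monomial, nf_monomial, nf_monomial, map_mul, mul_assoc]

lemma nf_neg (x0 x1 : H) (P : k[X][X]) : nf x0 x1 (-P) = - nf x0 x1 P := by
  have : -P = C (-1) * P := by rw [C_neg, C_1]; ring
  rw [this, nf_C_mul]; simp

/-- the commutation claim -/
lemma comm_claim (x0 x1 : H) (β d : k[X])
    (hrel : x1 * x0 = aeval x0 β * x1 + aeval x0 d) (t s : k)
    (hts : s * t = s * β.eval t + d.eval t) (p : k[X]) :
    ∃ q r : k[X], x1 * aeval x0 p = aeval x0 q * x1 + aeval x0 r ∧
      s * p.eval t = s * q.eval t + r.eval t := by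
  have hX : ∀ p : k[X], (∃ q r : k[X], x1 * aeval x0 p = aeval x0 q * x1 + aeval x0 r ∧
      s * p.eval t = s * q.eval t + r.eval t) → (∃ q r : k[X], x1 * aeval x0 (p * X) =
        aeval x0 q * x1 + aeval x0 r ∧ s * (p * X).eval t = s * q.eval t + r.eval t) := by
    rintro p ⟨q, r, h1, h2⟩
    refine ⟨q * β, q * d + r * X, ?_, ?_⟩
    · rw [map_mul, aeval_X, ← mul_assoc, h1, add_mul, mul_assoc, hrel]
      simp only [map_mul, map_add, aeval_X]
      noncomm_ring
    · simp only [eval_mul, eval_add, eval_X]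
      linear_combination t * h2 + q.eval t * hts
  induction p using Polynomial.induction_on with
  | C c =>
    refine ⟨C c, 0, ?_, by simp⟩
    simp only [aeval_C, map_zero, add_zero]
    exact (Algebra.commutes c x1).symm
  | add p p' hp hp' =>
    obtain ⟨q, r, h1, h2⟩ := hp
    obtain ⟨q', r', h1', h2'⟩ := hp'
    refine ⟨q + q', r + r', ?_, ?_⟩
    · simp only [map_add, mul_add, add_mul, h1, h1']; abel
    · simp only [eval_add]; linear_combination h2 + h2'
  | monomial n a ih =>
    have := hX _ ih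
    rwa [mul_assoc, ← pow_succ] at this

lemma x1_claim (x0 x1 : H) (β d : k[X])
    (hrel : x1 * x0 = aeval x0 β * x1 + aeval x0 d) (t s : k)
    (hts : s * t = s * β.eval t + d.eval t) (P : k[X][X]) :
    ∃ Q : k[X][X], x1 * nf x0 x1 P = nf x0 x1 Q ∧ Q.evalEval t s = s * P.evalEval t s := by
  induction P using Polynomial.induction_on' with
  | add P Q hP hQ =>
    obtain ⟨P', h1, h2⟩ := hP
    obtain ⟨Q', h1', h2'⟩ := hQ
    refine ⟨P' + Q', by rw [nf_add, nf_add, mul_add, h1, h1'], ?_⟩
    rw [evalEval_add, evalEval_add, h2, h2']; ring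
  | monomial j p =>
    obtain ⟨q, r, h1, h2⟩ := comm_claim x0 x1 β d hrel t s hts p
    refine ⟨monomial (j + 1) q + monomial j r, ?_, ?_⟩
    · rw [nf_add, nf_monomial, nf_monomial, nf_monomial, ← mul_assoc, h1, add_mul, mul_assoc,
        ← pow_succ']
    · simp only [evalEval, eval_add, eval_monomial, eval_mul, eval_pow, eval_C]
      linear_combination (-(s ^ j)) * h2

lemma nf_surj (x0 x1 : H) (β d : k[X])
    (hrel : x1 * x0 = aeval x0 β * x1 + aeval x0 d) (t s : k)
    (hts : s * t = s * β.eval t + d.eval t)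
    (hgen : Algebra.adjoin k ({x0, x1} : Set H) = ⊤) (h : H) :
    ∀ P : k[X][X], ∃ Q : k[X][X], h * nf x0 x1 P = nf x0 x1 Q := by
  have hh : h ∈ Algebra.adjoin k ({x0, x1} : Set H) := by rw [hgen]; trivial
  induction hh using Algebra.adjoin_induction with
  | mem y hy =>
    intro P
    simp only [Set.mem_insert_iff, Set.mem_singleton_iff] at hy
    rcases hy with rfl | rfl
    · exact ⟨C X * P, by rw [nf_C_mul, aeval_X]⟩
    · obtain ⟨Q, hQ, -⟩ := x1_claim x0 y β d hrel t s hts P
      exact ⟨Q, hQ⟩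
  | algebraMap r =>
    intro P
    exact ⟨C (C r) * P, by rw [nf_C_mul, aeval_C]⟩
  | add a b _ _ ha hb =>
    intro P
    obtain ⟨Q, hQ⟩ := ha P
    obtain ⟨Q', hQ'⟩ := hb P
    exact ⟨Q + Q', by rw [nf_add, add_mul, hQ, hQ']⟩
  | mul a b _ _ ha hb =>
    intro P
    obtain ⟨Q, hQ⟩ := hb P
    obtain ⟨Q', hQ'⟩ := ha Q
    exact ⟨Q', by rw [mul_assoc, hQ, hQ']⟩

theorem exists_char (x0 x1 : H) (β d : k[X])
    (hrel : x1 * x0 = aeval x0 β * x1 + aeval x0 d)
    (hgen : Algebra.adjoin k ({x0, x1} : Set H) = ⊤)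
    (hfree : ∀ P : k[X][X], nf x0 x1 P = 0 → P = 0) (t s : k)
    (hts : s * t = s * β.eval t + d.eval t) :
    ∃ χ : H →ₐ[k] k, χ x0 = t ∧ χ x1 = s := by
  have hinj : ∀ P Q : k[X][X], nf x0 x1 P = nf x0 x1 Q → P = Q := by
    intro P Q h
    have : nf x0 x1 (P + -Q) = 0 := by rw [nf_add, nf_neg, h]; simp
    have := hfree _ this
    rwa [← sub_eq_add_neg, sub_eq_zero] at this
  have hsurj : ∀ h : H, ∃ P : k[X][X], nf x0 x1 P = h := by
    intro h
    obtain ⟨Q, hQ⟩ := nf_surj x0 x1 β d hrel t s hts hgen h 1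
    refine ⟨Q, ?_⟩
    rw [← hQ, ← C_1, nf_C]; simp
  choose g hg using hsurj
  have hgn : ∀ P, g (nf x0 x1 P) = P := fun P => hinj _ _ (hg _)
  have hθ : ∀ P, (g (nf x0 x1 P)).evalEval t s = P.evalEval t s := fun P => by rw [hgn]
  have hadd : ∀ a b, g (a + b) = g a + g b := by
    intro a b
    apply hinj
    rw [nf_add, hg, hg, hg]
  have hmul : ∀ a b, (g (a * b)).evalEval t s = (g a).evalEval t s * (g b).evalEval t s := by
    intro a
    have hh : a ∈ Algebra.adjoin k ({x0, x1} : Set H) := by rw [hgen]; trivial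
    induction hh using Algebra.adjoin_induction with
    | mem y hy =>
      intro b
      simp only [Set.mem_insert_iff, Set.mem_singleton_iff] at hy
      rcases hy with rfl | rfl
      · have h1 : g y = C X := by
          apply hinj
          rw [hg, nf_C, aeval_X]
        have h2 : g (y * b) = C X * g b := by
          apply hinj
          rw [hg, nf_C_mul, hg, aeval_X]
        rw [h1, h2]; simp [evalEval]
      · have h1 : g y = X := by
          apply hinj
          rw [hg, ← monomial_one_one_eq_X, nf_monomial]; simp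
        obtain ⟨Q, hQ1, hQ2⟩ := x1_claim x0 y β d hrel t s hts (g b)
        rw [hg] at hQ1
        rw [h1, hQ1, hgn, hQ2]; simp [evalEval]
    | algebraMap r =>
      intro b
      have h1 : g (algebraMap k H r) = C (C r) := by
        apply hinj
        rw [hg, nf_C, aeval_C]
      have h2 : g (algebraMap k H r * b) = C (C r) * g b := by
        apply hinj
        rw [hg, nf_C_mul, hg, aeval_C]
      rw [h1, h2]; simp [evalEval]
    | add a a' _ _ ha ha' =>
      intro b
      rw [add_mul, hadd, hadd, evalEval_add, evalEval_add, ha, ha']; ring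
    | mul a a' _ _ ha ha' =>
      intro b
      rw [mul_assoc, ha, ha', ha]; ring
  have hg1 : ∀ r : k, g (algebraMap k H r) = C (C r) := by
    intro r
    apply hinj
    rw [hg, nf_C, aeval_C]
  let f : H →ₐ[k] k :=
    { toFun := fun h => (g h).evalEval t s
      map_one' := by
        have : g 1 = C (C 1) := by rw [← hg1, map_one]
        rw [this]; simp [evalEval]
      map_mul' := hmul
      map_zero' := by
        have : g 0 = C (C 0) := by rw [← hg1, map_zero]
        rw [this]; simp [evalEval]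
      map_add' := fun a b => by rw [hadd, evalEval_add]
      commutes' := fun r => by
        rw [hg1]; simp [evalEval] }
  refine ⟨f, ?_, ?_⟩
  · change (g x0).evalEval t s = t
    have h1 : g x0 = C X := by
      apply hinj
      rw [hg, nf_C, aeval_X]
    rw [h1]; simp [evalEval]
  · change (g x1).evalEval t s = s
    have h1 : g x1 = X := by
      apply hinj
      rw [hg, ← monomial_one_one_eq_X, nf_monomial]; simp
    rw [h1]; simp [evalEval]

theorem infinite_chars [Infinite k] (x0 x1 : H) (β d : k[X])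
    (hrel : x1 * x0 = aeval x0 β * x1 + aeval x0 d)
    (hgen : Algebra.adjoin k ({x0, x1} : Set H) = ⊤)
    (hfree : ∀ P : k[X][X], nf x0 x1 P = 0 → P = 0) (ε : H →ₐ[k] k) :
    Infinite (H →ₐ[k] k) := by
  by_contra hfin
  rw [not_infinite_iff_finite] at hfin
  have hex := exists_char x0 x1 β d hrel hgen hfree
  by_cases hβ : X - β = 0
  · -- all `s` occur over `t = ε(x₀)`
    have hβ' : β = X := (sub_eq_zero.1 hβ).symm
    have hd : d.eval (ε x0) = 0 := by
      have h1 := congrArg ε hrel
      rw [hβ', map_add, map_mul, map_mul, aeval_X, ← Polynomial.aeval_algHom_apply] at h1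
      simp only [Polynomial.coe_aeval_eq_eval] at h1
      linear_combination -h1
    have h2 : ∀ s : k, ∃ χ : H →ₐ[k] k, χ x1 = s := by
      intro s
      obtain ⟨χ, -, h⟩ := hex (ε x0) s (by rw [hβ', hd, eval_X]; ring)
      exact ⟨χ, h⟩
    have h3 : Function.Surjective (fun χ : H →ₐ[k] k => χ x1) := h2
    have := Finite.of_surjective _ h3
    exact not_finite k
  · -- infinitely many `t`
    have h2 : ∀ t : k, (X - β).eval t ≠ 0 → ∃ χ : H →ₐ[k] k, χ x0 = t := by
      intro t ht
      have ht' : t - β.eval t ≠ 0 := by simpa using ht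
      obtain ⟨χ, h, -⟩ := hex t (d.eval t / (t - β.eval t)) (by
        field_simp
        ring)
      exact ⟨χ, h⟩
    have h3 : (Set.univ : Set k) ⊆ (Set.range (fun χ : H →ₐ[k] k => χ x0)) ∪
        {t | (X - β).IsRoot t} := by
      intro t _
      by_cases ht : (X - β).eval t = 0
      · right; exact ht
      · left; exact h2 t ht
    have h4 : ((Set.range (fun χ : H →ₐ[k] k => χ x0)) ∪
        {t | (X - β).IsRoot t}).Finite :=
      (Set.finite_range _).union (Polynomial.finite_setOfPred_isRoot hβ)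
    exact Set.infinite_univ (h4.subset h3)

end two

end Pool.Agent.HopfTwo
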