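import Pool.Agent.H.MP_d9e773_al.helper54.GK
import Pool.Agent.H.MP_d9e773_al.helper54.Ore

set_option autoImplicit false

/-!
# `H` is not an iterated Hopf Ore extension
-/

namespace Pool.Agent.HopfTwo

open MvPolynomial

namespace HH

variable {k : Type} [Field k] [CharP k 2]

lemma char_X1 (χ : HH k →ₐ[k] k) : χ (io (X 1)) = 0 := by
  have h := congrArg χ (zz_mul_io (k := k) (X 0))
  rw [dl_X0, map_add, map_mul, map_mul, map_pow, map_pow, mul_comm] at h
  have : χ (io (X 1)) ^ 2 = 0 := by linear_combination -h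
  exact pow_eq_zero_iff (two_ne_zero) |>.1 this

lemma char_zz (χ : HH k →ₐ[k] k) : χ zz = 0 := by
  have h := congrArg χ (zz_mul_zz (k := k))
  rw [ff, map_mul, map_mul, map_mul, map_pow, map_pow, char_X1] at h
  have : χ zz ^ 2 = 0 := by linear_combination h
  exact pow_eq_zero_iff (two_ne_zero) |>.1 this

lemma char_X0 (χ : HH k →ₐ[k] k) : χ (io (X 0)) = 0 ∨ χ (io (X 0)) = 1 := by
  have h := congrArg χ (zz_mul_io (k := k) (X 1))
  have h2k : (2 : k) = 0 := by exact_mod_cast CharP.cast_eq_zero k 2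
  rw [dl_X1] at h
  simp only [map_add, map_mul, map_pow, char_X1, char_zz] at h
  have h1 : (χ (io (X 0)) + χ (io (X 0)) ^ 2) ^ 4 = 0 := by
    set a := χ (io (X 0))
    linear_combination -h + (2 * a ^ 5 + 3 * a ^ 6 + 2 * a ^ 7) * h2k
  have h3 : χ (io (X 0)) + χ (io (X 0)) ^ 2 = 0 := pow_eq_zero_iff (by norm_num) |>.1 h1
  have h4 : χ (io (X 0)) * (1 + χ (io (X 0))) = 0 := by linear_combination h3
  rcases mul_eq_zero.1 h4 with h5 | h5
  · exact Or.inl h5
  · right; linear_combination h5 - h2k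

lemma finite_chars : Finite (HH k →ₐ[k] k) := by
  have : Set.Finite ({0, 1} : Set k) := Set.toFinite _
  have hfin : Finite ({0, 1} : Set k) := this
  refine Finite.of_injective (fun χ : HH k →ₐ[k] k => (⟨χ (io (X 0)), by
    rcases char_X0 χ with h | h <;> simp [h]⟩ : ({0, 1} : Set k))) ?_
  intro χ ψ h
  have h0 : χ (io (X 0)) = ψ (io (X 0)) := congrArg Subtype.val h
  apply hom_ext
  · intro i
    fin_cases i
    · exact h0
    · simp only [Fin.mk_one, char_X1]
  · rw [char_zz, char_zz]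

lemma not_comm : (zz : HH k) * io (X 0) ≠ io (X 0) * zz := by
  rw [zz_mul_io, dl_X0]
  intro h
  have h1 : (io (X 1 ^ 2 : PA k)) = 0 := by
    have : io (X 0) * zz + io (X 1 ^ 2 : PA k) - io (X 0) * zz = 0 := by rw [h, sub_self]
    simpa using this
  have h2 := congrArg HH.u h1
  rw [io_u, zero_u] at h2
  exact pow_ne_zero 2 (X_ne_zero 1) h2

section ore

variable (n : ℕ) (X' : ℕ → HH k) (A : ℕ → Subalgebra k (HH k))
  (hA : ∀ i, A i = Algebra.adjoin k (X' '' {j | j < i}))

include hA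

lemma no_one (htop : A 1 = ⊤) : False := by
  have hset : X' '' {j | j < 1} = {X' 0} := by
    ext y; simp
  have h1 : ∀ a : HH k, ∃ p : Polynomial k, Polynomial.aeval (X' 0) p = a := by
    intro a
    have ha : a ∈ A 1 := by rw [htop]; trivial
    rw [hA, hset, Algebra.adjoin_singleton_eq_range_aeval] at ha
    exact ha
  obtain ⟨p, hp⟩ := h1 zz
  obtain ⟨q, hq⟩ := h1 (io (X 0))
  apply not_comm (k := k)
  rw [← hp, ← hq, ← map_mul, mul_comm, map_mul]

end ore

/-- freeness in `Fin` form -/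
lemma free_fin (A : Subalgebra k (HH k)) (x : HH k)
    (h : ∀ m : ℕ, ∀ c : ℕ → HH k, (∀ j, c j ∈ A) →
          ∑ j ∈ Finset.range m, c j * x ^ j = 0 → ∀ j, j < m → c j = 0)
    (m : ℕ) (c : Fin m → HH k) (hc : ∀ j, c j ∈ A) (h0 : ∑ j : Fin m, c j * x ^ (j : ℕ) = 0) :
    ∀ j, c j = 0 := by
  intro j
  have := h m (fun j => if h : j < m then c ⟨j, h⟩ else 0) (by
    intro j
    split_ifs with hj
    · exact hc _
    · exact A.zero_mem) (by
    rw [Finset.sum_range]
    simpa using h0) j j.2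
  simpa using this

section ore2

variable (n : ℕ) (X' : ℕ → HH k) (A : ℕ → Subalgebra k (HH k))
  (hA : ∀ i, A i = Algebra.adjoin k (X' '' {j | j < i}))
  (hfree : ∀ i, i < n → ∀ m : ℕ, ∀ c : ℕ → HH k, (∀ j, c j ∈ A i) →
          ∑ j ∈ Finset.range m, c j * X' i ^ j = 0 → ∀ j, j < m → c j = 0)
  (hrel : ∀ i, i < n → ∀ a ∈ A i, ∃ b ∈ A i, X' i * a - b * X' i ∈ A i)

include hA hfree in
lemma aeval_inj (hn : 1 ≤ n) (p : Polynomial k) (hp : Polynomial.aeval (X' 0) p = 0) : p = 0 := by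
  rw [Polynomial.aeval_eq_sum_range] at hp
  have h := hfree 0 (by omega) (p.natDegree + 1) (fun j => algebraMap k (HH k) (p.coeff j))
    (fun j => (A 0).algebraMap_mem _) (by
      rw [← hp]
      apply Finset.sum_congr rfl
      intro j _
      rw [Algebra.smul_def])
  apply Polynomial.ext
  intro j
  rw [Polynomial.coeff_zero]
  rcases Nat.lt_or_ge p.natDegree j with hj | hj
  · exact Polynomial.coeff_eq_zero_of_natDegree_lt hj
  · have := h j (by omega)
    exact (map_eq_zero_iff _ (algebraMap k (HH k)).injective).1 this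

include hA in
lemma mem_A1 (a : HH k) : a ∈ A 1 ↔ ∃ p : Polynomial k, Polynomial.aeval (X' 0) p = a := by
  have hset : X' '' {j | j < 1} = {X' 0} := by
    ext y; simp
  rw [hA, hset, Algebra.adjoin_singleton_eq_range_aeval]
  rfl

include hA hfree hrel in
lemma no_two [Infinite k] (hn : n = 2) (htop : A n = ⊤) : False := by
  subst hn
  have hset : X' '' {j | j < 2} = {X' 0, X' 1} := by
    ext y
    simp only [Set.mem_image, Set.mem_setOf_eq, Set.mem_insert_iff, Set.mem_singleton_iff]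
    constructor
    · rintro ⟨j, hj, rfl⟩
      interval_cases j <;> simp
    · rintro (rfl | rfl)
      · exact ⟨0, by norm_num, rfl⟩
      · exact ⟨1, by norm_num, rfl⟩
  have hgen : Algebra.adjoin k ({X' 0, X' 1} : Set (HH k)) = ⊤ := by
    rw [← hset, ← hA, htop]
  have h0 : X' 0 ∈ A 1 := (mem_A1 X' A hA _).2 ⟨Polynomial.X, by simp⟩
  obtain ⟨b, hb, hd⟩ := hrel 1 (by norm_num) (X' 0) h0
  obtain ⟨β, hβ⟩ := (mem_A1 X' A hA _).1 hb
  obtain ⟨d, hd⟩ := (mem_A1 X' A hA _).1 hd
  have hrel' : X' 1 * X' 0 = Polynomial.aeval (X' 0) β * X' 1 + Polynomial.aeval (X' 0) d := by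
    rw [hβ, hd]; abel
  have hnf : ∀ P : Polynomial (Polynomial k), nf (X' 0) (X' 1) P = 0 → P = 0 := by
    intro P hP
    unfold nf at hP
    rw [Polynomial.eval₂_eq_sum_range] at hP
    have h := hfree 1 (by norm_num) (P.natDegree + 1)
      (fun j => Polynomial.aeval (X' 0) (P.coeff j))
      (fun j => (mem_A1 X' A hA _).2 ⟨_, rfl⟩) hP
    apply Polynomial.ext
    intro j
    rw [Polynomial.coeff_zero]
    rcases Nat.lt_or_ge P.natDegree j with hj | hj
    · exact Polynomial.coeff_eq_zero_of_natDegree_lt hj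
    · exact aeval_inj 2 X' A hA hfree (by norm_num) _ (h j (by omega))
  have h1 := infinite_chars (X' 0) (X' 1) β d hrel' hgen hnf cou
  have h2 := finite_chars (k := k)
  exact not_finite (HH k →ₐ[k] k)

include hA in
lemma X_mem_A {i j : ℕ} (h : i < j) : X' i ∈ A j := by
  rw [hA]
  exact Algebra.subset_adjoin ⟨i, h, rfl⟩

include hA in
lemma A_mono {i j : ℕ} (h : i ≤ j) : A i ≤ A j := by
  rw [hA, hA]
  apply Algebra.adjoin_mono
  rintro _ ⟨l, hl, rfl⟩
  exact ⟨l, lt_of_lt_of_le hl h, rfl⟩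

include hA hfree in
lemma no_three (hn : 3 ≤ n) : False := by
  obtain ⟨m0, h0⟩ := exists_Fl (X' 0)
  obtain ⟨m1, h1⟩ := exists_Fl (X' 1)
  obtain ⟨m2, h2⟩ := exists_Fl (X' 2)
  set m := m0 + m1 + m2 with hm
  have h0 : X' 0 ∈ Fl m := Fl_mono (by omega) h0
  have h1 : X' 1 ∈ Fl m := Fl_mono (by omega) h1
  have h2 : X' 2 ∈ Fl m := Fl_mono (by omega) h2
  have hpow : ∀ (a : HH k) (e : ℕ), a ∈ Fl m → a ^ e ∈ Fl (e * m) := by
    intro a e ha
    induction e with
    | zero => rw [pow_zero]; exact one_mem_Fl _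
    | succ e ih => rw [pow_succ, Nat.succ_mul]; exact mul_mem_Fl ih ha
  have hli : ∀ N : ℕ, LinearIndependent k (fun lji : Fin N × Fin N × Fin N =>
      X' 0 ^ (lji.2.2 : ℕ) * X' 1 ^ (lji.2.1 : ℕ) * X' 2 ^ (lji.1 : ℕ)) := by
    intro N
    rw [Fintype.linearIndependent_iff]
    rintro g hg ⟨l, j, i⟩
    have e1 := free_fin (A 2) (X' 2) (hfree 2 (by omega)) N
      (fun l => ∑ j : Fin N, ∑ i : Fin N, g (l, j, i) • (X' 0 ^ (i : ℕ) * X' 1 ^ (j : ℕ)))
      (fun l => sum_mem fun j _ => sum_mem fun i _ => (A 2).smul_mem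
        (mul_mem (pow_mem (X_mem_A X' A hA (by norm_num)) _)
          (pow_mem (X_mem_A X' A hA (by norm_num)) _)) _)
      (by
        rw [← hg, Fintype.sum_prod_type]
        apply Finset.sum_congr rfl
        intro l _
        rw [Fintype.sum_prod_type, Finset.sum_mul]
        apply Finset.sum_congr rfl
        intro j _
        rw [Finset.sum_mul]
        apply Finset.sum_congr rfl
        intro i _
        rw [smul_mul_assoc])
    have e2 := free_fin (A 1) (X' 1) (hfree 1 (by omega)) N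
      (fun j => ∑ i : Fin N, g (l, j, i) • (X' 0 ^ (i : ℕ)))
      (fun j => sum_mem fun i _ => (A 1).smul_mem
        (pow_mem (X_mem_A X' A hA (by norm_num)) _) _)
      (by
        rw [← e1 l]
        apply Finset.sum_congr rfl
        intro j _
        rw [Finset.sum_mul]
        apply Finset.sum_congr rfl
        intro i _
        rw [smul_mul_assoc])
    have e3 := free_fin (A 0) (X' 0) (hfree 0 (by omega)) N
      (fun i => algebraMap k (HH k) (g (l, j, i)))
      (fun i => (A 0).algebraMap_mem _)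
      (by
        rw [← e2 j]
        apply Finset.sum_congr rfl
        intro i _
        rw [Algebra.smul_def])
    exact (map_eq_zero_iff _ (algebraMap k (HH k)).injective).1 (e3 i)
  have hcount : ∀ N : ℕ, N ^ 3 ≤ 2 * (3 * N * m + 1) ^ 2 := by
    intro N
    have hspan : Submodule.span k (Set.range (fun lji : Fin N × Fin N × Fin N =>
      X' 0 ^ (lji.2.2 : ℕ) * X' 1 ^ (lji.2.1 : ℕ) * X' 2 ^ (lji.1 : ℕ))) ≤ Fl (3 * N * m) := by
      rw [Submodule.span_le]
      rintro _ ⟨⟨⟨l, hl⟩, ⟨j, hj⟩, ⟨i, hi⟩⟩, rfl⟩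
      have e := mul_mem_Fl (mul_mem_Fl (hpow _ i h0) (hpow _ j h1)) (hpow _ l h2)
      refine Fl_mono ?_ e
      rw [← add_mul, ← add_mul]
      exact Nat.mul_le_mul_right _ (by omega)
    have h5 := Submodule.finrank_mono hspan
    rw [finrank_span_eq_card (hli N)] at h5
    have h6 := h5.trans (finrank_Fl_le (3 * N * m))
    have h7 : Fintype.card (Fin N × Fin N × Fin N) = N ^ 3 := by simp; ring
    rw [h7] at h6
    exact h6
  have h8 := hcount (2 * (3 * m + 1) ^ 2 + 1)
  set N := 2 * (3 * m + 1) ^ 2 + 1 with hN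
  have h9 : 3 * N * m + 1 ≤ N * (3 * m + 1) := by nlinarith
  have h10 : (3 * N * m + 1) ^ 2 ≤ (N * (3 * m + 1)) ^ 2 := Nat.pow_le_pow_left h9 2
  have h11 : N ^ 3 = N ^ 2 * (2 * (3 * m + 1) ^ 2) + N ^ 2 := by
    have : N ^ 3 = N ^ 2 * N := by ring
    rw [this]
    conv_lhs => rw [hN]
    rw [← hN]
    ring
  have h12 : 0 < N ^ 2 := by positivity
  nlinarith

end ore2

end HH

end Pool.Agent.HopfTwo
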