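import Mathlib

set_option autoImplicit false

/-!
# The algebra `H = A ⊕ A z` over `A = k[x, y]`, `char k = 2`

`z u = u z + δ(u)`, `z² = f`.
-/

namespace Pool.Agent.HopfTwo

open MvPolynomial

/-- the polynomial algebra `k[x, y]` -/
abbrev PA (k : Type) [Field k] : Type := MvPolynomial (Fin 2) k

section der
variable (k : Type) [Field k]

/-- The derivation `δ(x) = y²`, `δ(y) = y² + x⁴ + x⁸`. -/
noncomputable def dl : Derivation k (PA k) (PA k) :=
  MvPolynomial.mkDerivation k
    (fun i : Fin 2 => if i = 0 then (X 1 ^ 2 : PA k) else X 1 ^ 2 + X 0 ^ 4 + X 0 ^ 8)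

/-- `f = y² (x² + x⁴)` -/
noncomputable def ff : PA k := X 1 ^ 2 * (X 0 ^ 2 + X 0 ^ 4)

@[simp] lemma dl_X0 : dl k (X 0) = X 1 ^ 2 := by
  simp [dl, mkDerivation_X]

@[simp] lemma dl_X1 : dl k (X 1) = X 1 ^ 2 + X 0 ^ 4 + X 0 ^ 8 := by
  simp [dl, mkDerivation_X]

end der

section char2
variable (k : Type) [Field k] [CharP k 2]

lemma two_zero : (2 : PA k) = 0 := by
  have : CharP (PA k) 2 := inferInstance
  exact_mod_cast CharP.cast_eq_zero (PA k) 2

lemma add_self' (a : PA k) : a + a = 0 := by
  rw [← two_mul, two_zero, zero_mul]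

lemma dl_sq (a : PA k) : dl k (a ^ 2) = 0 := by
  rw [Derivation.leibniz_pow]
  simp only [nsmul_eq_mul, Nat.cast_ofNat, two_zero, zero_mul, zero_smul]

/-- squares are constants: `δ(a² b) = a² δ(b)` -/
lemma dl_sq_mul (a b : PA k) : dl k (a ^ 2 * b) = a ^ 2 * dl k b := by
  rw [Derivation.leibniz, dl_sq]; simp

lemma dl_dl_X (i : Fin 2) : dl k (dl k (X i)) = 0 := by
  fin_cases i
  · simp only [Fin.zero_eta, dl_X0]; exact dl_sq k _
  · simp only [Fin.mk_one, dl_X1, map_add]
    have h4 : (X 0 : PA k) ^ 4 = (X 0 ^ 2) ^ 2 := by ring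
    have h8 : (X 0 : PA k) ^ 8 = (X 0 ^ 4) ^ 2 := by ring
    rw [h4, h8, dl_sq, dl_sq, dl_sq]; simp

lemma dl_dl (a : PA k) : dl k (dl k a) = 0 := by
  induction a using MvPolynomial.induction_on with
  | C c => simp [← MvPolynomial.algebraMap_eq]
  | add p q hp hq => simp [hp, hq]
  | mul_X p i hp =>
    simp only [Derivation.leibniz, smul_eq_mul, map_add, hp, dl_dl_X]
    have := two_zero k
    linear_combination (dl k p * dl k (X i)) * this

lemma dl_ff : dl k (ff k) = 0 := by
  have : ff k = (X 1 * (X 0 + X 0 ^ 2)) ^ 2 := by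
    have := two_zero k
    unfold ff
    linear_combination -(X 1 ^ 2 * X 0 ^ 3) * this
  rw [this, dl_sq]

end char2

/-- The underlying set `A ⊕ A z`; the pair `(u, v)` stands for `u + v z`. -/
@[ext] structure HH (k : Type) [Field k] where
  /-- the coefficient of `1` -/
  u : PA k
  /-- the coefficient of `z` -/
  v : PA k

namespace HH

section add
variable {k : Type} [Field k]

/-- as a pair -/
def toProd (a : HH k) : PA k × PA k := (a.u, a.v)

lemma toProd_inj : Function.Injective (toProd (k := k)) := by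
  intro a b h
  simp only [toProd, Prod.mk.injEq] at h
  exact HH.ext h.1 h.2

noncomputable instance : Zero (HH k) := ⟨⟨0, 0⟩⟩
noncomputable instance : One (HH k) := ⟨⟨1, 0⟩⟩
noncomputable instance : Add (HH k) := ⟨fun a b => ⟨a.u + b.u, a.v + b.v⟩⟩
noncomputable instance : Neg (HH k) := ⟨fun a => ⟨-a.u, -a.v⟩⟩
noncomputable instance : Sub (HH k) := ⟨fun a b => ⟨a.u - b.u, a.v - b.v⟩⟩
noncomputable instance instSMulk : SMul k (HH k) := ⟨fun c a => ⟨c • a.u, c • a.v⟩⟩
noncomputable instance instSMulNat : SMul ℕ (HH k) := ⟨fun c a => ⟨c • a.u, c • a.v⟩⟩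
noncomputable instance instSMulInt : SMul ℤ (HH k) := ⟨fun c a => ⟨c • a.u, c • a.v⟩⟩
noncomputable instance : Mul (HH k) :=
  ⟨fun a b => ⟨a.u * b.u + a.v * dl k b.u + a.v * b.v * ff k,
    a.u * b.v + a.v * b.u + a.v * dl k b.v⟩⟩

@[simp] lemma zero_u : (0 : HH k).u = 0 := rfl
@[simp] lemma zero_v : (0 : HH k).v = 0 := rfl
@[simp] lemma one_u : (1 : HH k).u = 1 := rfl
@[simp] lemma one_v : (1 : HH k).v = 0 := rfl
@[simp] lemma add_u (a b : HH k) : (a + b).u = a.u + b.u := rfl
@[simp] lemma add_v (a b : HH k) : (a + b).v = a.v + b.v := rfl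
@[simp] lemma neg_u (a : HH k) : (-a).u = -a.u := rfl
@[simp] lemma neg_v (a : HH k) : (-a).v = -a.v := rfl
@[simp] lemma sub_u (a b : HH k) : (a - b).u = a.u - b.u := rfl
@[simp] lemma sub_v (a b : HH k) : (a - b).v = a.v - b.v := rfl
@[simp] lemma smul_u (c : k) (a : HH k) : (c • a).u = c • a.u := rfl
@[simp] lemma smul_v (c : k) (a : HH k) : (c • a).v = c • a.v := rfl
@[simp] lemma mul_u (a b : HH k) :
    (a * b).u = a.u * b.u + a.v * dl k b.u + a.v * b.v * ff k := rfl
@[simp] lemma mul_v (a b : HH k) :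
    (a * b).v = a.u * b.v + a.v * b.u + a.v * dl k b.v := rfl

noncomputable instance : AddCommGroup (HH k) :=
  Function.Injective.addCommGroup toProd toProd_inj rfl (fun _ _ => rfl) (fun _ => rfl)
    (fun _ _ => rfl) (fun _ _ => rfl) (fun _ _ => rfl)

/-- as a pair, additive version -/
noncomputable def toProdAdd : HH k →+ PA k × PA k where
  toFun := toProd
  map_zero' := rfl
  map_add' _ _ := rfl

noncomputable instance : Module k (HH k) :=
  Function.Injective.module k toProdAdd toProd_inj (fun _ _ => rfl)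

end add

section ring
variable {k : Type} [Field k] [CharP k 2]

noncomputable instance : Ring (HH k) where
  __ := (inferInstance : AddCommGroup (HH k))
  mul_assoc a b c := by
    have h2 := two_zero k
    ext1
    · simp only [mul_u, mul_v, map_add, Derivation.leibniz, smul_eq_mul, dl_dl, dl_ff]
      linear_combination (-(a.v * b.v * dl k c.v * ff k)) * h2
    · simp only [mul_u, mul_v, map_add, Derivation.leibniz, smul_eq_mul, dl_dl, dl_ff]
      linear_combination (-(a.v * b.v * dl k c.u)) * h2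
  one_mul a := by ext1 <;> simp
  mul_one a := by ext1 <;> simp
  left_distrib a b c := by
    ext1 <;> simp only [mul_u, mul_v, add_u, add_v, map_add] <;> ring
  right_distrib a b c := by
    ext1 <;> simp only [mul_u, mul_v, add_u, add_v, map_add] <;> ring
  zero_mul a := by ext1 <;> simp
  mul_zero a := by ext1 <;> simp

noncomputable instance : Algebra k (HH k) :=
  Algebra.ofModule
    (fun r a b => by ext1 <;> simp [Algebra.smul_def] <;> ring)
    (fun r a b => by ext1 <;> simp [Algebra.smul_def] <;> ring)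

lemma algebraMap_u (c : k) : (algebraMap k (HH k) c).u = C c := by
  rw [Algebra.algebraMap_eq_smul_one]; simp [smul_eq_C_mul]

lemma algebraMap_v (c : k) : (algebraMap k (HH k) c).v = 0 := by
  rw [Algebra.algebraMap_eq_smul_one]; simp

end ring

end HH

end Pool.Agent.HopfTwo
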